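import Pool.Agent.NSC.Sem

/-!
# Splitting infinite well-orderable sets inside models of ZF
-/

namespace Pool.Agent.NSC

open Pool.Agent.BVM

/-- formula for `Bij` -/
def fBij (f a b : ℕ) : Fml :=
  .and (.all (.imp (.mem 0 (f + 1)) (.ex (.ex (.and (.mem 1 (a + 3)) (.and (.mem 0 (b + 3))
    (fOPair 2 1 0)))))))
    (.and (.all (.imp (.mem 0 (a + 1)) (.ex (.and (fRel (f + 2) 1 0)
      (.all (.imp (fRel (f + 3) 2 0) (.eq 0 1)))))))
      (.all (.imp (.mem 0 (b + 1)) (.ex (.and (fRel (f + 2) 0 1)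
        (.all (.imp (fRel (f + 3) 0 2) (.eq 0 1))))))))

/-- formula for `Ind` -/
def fInd (I : ℕ) : Fml :=
  .and (.ex (.and (.mem 0 (I + 1)) (.all (.neg (.mem 0 1)))))
    (.all (.imp (.mem 0 (I + 1)) (.ex (.and (.mem 0 (I + 2)) (.all (.iff (.mem 0 1)
      (.or (.mem 0 2) (.eq 0 2))))))))

/-- formula for `IsNat` -/
def fIsNat (n : ℕ) : Fml := .all (.imp (fInd 0) (.mem (n + 1) 0))

/-- formula for `Fin` -/
def fFin (x : ℕ) : Fml := .ex (.ex (.and (fIsNat 1) (fBij 0 1 (x + 2))))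

section

variable {M : Type*} (E : M → M → Prop)

/-- `ξ` is the least element of `O` which is related to `x` by `f` -/
def IsRho (O f x ξ : M) : Prop := E ξ O ∧ Rel E f ξ x ∧ ∀ η, E η ξ → ¬ Rel E f η x

/-- formula for `IsRho` -/
def fIsRho (O f x ξ : ℕ) : Fml :=
  .and (.mem ξ O) (.and (fRel f ξ x) (.all (.imp (.mem 0 (ξ + 1)) (.neg
    (fRel (f + 1) 0 (x + 1))))))

/-- `W` is the union of two disjoint sets which are in bijection -/
def EvenSet (W : M) : Prop :=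
  ∃ a b g, (∀ y, E y W ↔ (E y a ∨ E y b)) ∧ (∀ y, ¬ (E y a ∧ E y b)) ∧ Bij E g a b

/-- formula for `EvenSet` -/
def fEvenSet (W : ℕ) : Fml :=
  .ex (.ex (.ex (.and (.all (.iff (.mem 0 (W + 4)) (.or (.mem 0 3) (.mem 0 2))))
    (.and (.all (.neg (.and (.mem 0 3) (.mem 0 2)))) (fBij 0 2 1)))))

end

section

variable {M : Type*} {E : M → M → Prop} {v : ℕ → M}

theorem sat_fBij {f a b : ℕ} : Sat E (fBij f a b) v ↔ Bij E (v f) (v a) (v b) := Iff.rfl

theorem sat_fFin {x : ℕ} : Sat E (fFin x) v ↔ Fin E (v x) := Iff.rfl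

theorem sat_fIsRho {O f x ξ : ℕ} :
    Sat E (fIsRho O f x ξ) v ↔ IsRho E (v O) (v f) (v x) (v ξ) := Iff.rfl

theorem sat_fEvenSet {W : ℕ} : Sat E (fEvenSet W) v ↔ EvenSet E (v W) := Iff.rfl

/-- for finite sets, `EvenSet` means that the number of elements is even -/
theorem ZF.evenSet_iff (h : ZF E) {W : M} (hW : {y | E y W}.Finite) :
    EvenSet E W ↔ Even {y | E y W}.ncard := by
  constructor
  · rintro ⟨a, b, g, h1, h2, h3⟩
    obtain ⟨f, hf⟩ := h3.exists_map
    have e : {y | E y W} = {y | E y a} ∪ {y | E y b} := Set.ext h1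
    have hd : Disjoint {y | E y a} {y | E y b} :=
      Set.disjoint_left.2 fun y ha hb => h2 y ⟨ha, hb⟩
    have fa : {y | E y a}.Finite := hW.subset fun y hy => (h1 y).2 (Or.inl hy)
    have fb : {y | E y b}.Finite := hW.subset fun y hy => (h1 y).2 (Or.inr hy)
    rw [e, Set.ncard_union_eq hd fa fb]
    have hc : {y | E y a}.ncard = {y | E y b}.ncard := Nat.card_eq_of_bijective f hf
    rw [hc]
    exact ⟨_, rfl⟩
  · rintro ⟨k, hk⟩
    obtain ⟨s, hs, hsk⟩ := Set.exists_subset_card_eq (s := {y | E y W}) (n := k) (by omega)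
    have fs : s.Finite := hW.subset hs
    have ft : ({y | E y W} \ s).Finite := hW.subset Set.sdiff_subset
    obtain ⟨a, ha⟩ := h.exists_finset s fs
    obtain ⟨b, hb⟩ := h.exists_finset _ ft
    have ea : {y | E y a} = s := Set.ext ha
    have eb : {y | E y b} = {y | E y W} \ s := Set.ext hb
    have fa : {y | E y a}.Finite := by rw [ea]; exact fs
    have fb : {y | E y b}.Finite := by rw [eb]; exact ft
    have hc : {y | E y a}.ncard = {y | E y b}.ncard := by
      rw [ea, eb, Set.ncard_sdiff hs fs]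
      omega
    have : Finite {y | E y a} := fa
    have : Finite {y | E y b} := fb
    obtain ⟨g⟩ := Finite.card_eq.1 (show Nat.card {y | E y a} = Nat.card {y | E y b} from hc)
    obtain ⟨g', hg'⟩ := h.exists_bij fa g
    refine ⟨a, b, g', fun y => ?_, fun y => ?_, hg'⟩
    · rw [ha, hb]
      constructor
      · intro hy
        by_cases hys : y ∈ s
        · exact Or.inl hys
        · exact Or.inr ⟨hy, hys⟩
      · rintro (hy | hy)
        · exact hs hy
        · exact hy.1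
    · rw [ha, hb]
      rintro ⟨h1, h2⟩
      exact h2.2 h1

/-- an infinite set which is the image of a well-ordered set splits into two infinite sets -/
theorem ZF.exists_split (h : ZF E) {X O f : M} (hX : {x | E x X}.Infinite)
    (tri : ∀ ξ η, E ξ O → E η O → E ξ η ∨ ξ = η ∨ E η ξ)
    (tr : ∀ ξ η ζ, E ζ O → E ξ η → E η ζ → E ξ ζ) (trO : ∀ ξ η, E η O → E ξ η → E ξ O)
    (fn : ∀ ξ x y, Rel E f ξ x → Rel E f ξ y → x = y)
    (cov : ∀ x, E x X → ∃ ξ, E ξ O ∧ Rel E f ξ x) :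
    ∃ Y, Sub E Y X ∧ {x | E x Y}.Infinite ∧ {x | E x X ∧ ¬ E x Y}.Infinite := by
  have irr : ∀ ξ, ¬ E ξ ξ := h.not_mem_self
  have ex : ∀ x : {x | E x X}, ∃ ξ, IsRho E O f x.1 ξ := by
    intro x
    obtain ⟨Z, hZ⟩ := h.sep (fRel 2 0 1) (cons x.1 fun _ => f) O
    have hZ' : ∀ ξ, E ξ Z ↔ (E ξ O ∧ Rel E f ξ x.1) := hZ
    obtain ⟨ξ0, h0, h0'⟩ := cov x.1 x.2
    obtain ⟨ξ, h1, h2⟩ := h.found Z ⟨ξ0, (hZ' ξ0).2 ⟨h0, h0'⟩⟩
    obtain ⟨h3, h4⟩ := (hZ' ξ).1 h1
    exact ⟨ξ, h3, h4, fun η hη hr => h2 η hη ((hZ' η).2 ⟨trO η ξ h3 hη, hr⟩)⟩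
  choose ρ hρ using ex
  have uniq : ∀ x ξ η, IsRho E O f x ξ → IsRho E O f x η → ξ = η := by
    intro x ξ η h1 h2
    rcases tri ξ η h1.1 h2.1 with h3 | h3 | h3
    · exact absurd h1.2.1 (h2.2.2 ξ h3)
    · exact h3
    · exact absurd h2.2.1 (h1.2.2 η h3)
  have inj : Function.Injective ρ := by
    intro x y hxy
    apply Subtype.ext
    refine fn (ρ x) x.1 y.1 (hρ x).2.1 ?_
    rw [hxy]
    exact (hρ y).2.1
  let P : {x | E x X} → Set {x | E x X} := fun x => {y | E (ρ y) (ρ x)}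
  have Ptrans : ∀ x y, y ∈ P x → P y ⊆ P x := fun x y hy z hz =>
    tr _ _ _ (hρ x).1 hz hy
  have Pirr : ∀ x, x ∉ P x := fun x => irr _
  have Ptri : ∀ x y, x ∈ P y ∨ x = y ∨ y ∈ P x := by
    intro x y
    rcases tri _ _ (hρ x).1 (hρ y).1 with h1 | h1 | h1
    · exact Or.inl h1
    · exact Or.inr (Or.inl (inj h1))
    · exact Or.inr (Or.inr h1)
  have hlt : ∀ x y, (P y).Finite → x ∈ P y → (P x).ncard < (P y).ncard := by
    intro x y hy hxy
    exact Set.ncard_lt_ncard ⟨Ptrans y x hxy, fun h => Pirr x (h hxy)⟩ hy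
  -- minimal elements outside finite sets
  have least : ∀ s : Set {x | E x X}, s.Finite → ∃ x, x ∉ s ∧ P x ⊆ s := by
    intro s hs
    obtain ⟨a, ha⟩ := h.exists_finset (Subtype.val '' s) (hs.image _)
    obtain ⟨Z, hZ⟩ := h.sep (.ex (.and (.mem 0 3) (.and (.neg (.mem 0 4)) (fIsRho 2 5 0 1))))
      (cons O (cons X (cons a fun _ => f))) O
    have hZ' : ∀ ξ, E ξ Z ↔ (E ξ O ∧ ∃ x, E x X ∧ ¬ E x a ∧ IsRho E O f x ξ) := hZ
    have : Infinite {x | E x X} := hX.to_subtype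
    obtain ⟨x0, hx0⟩ := hs.exists_notMem
    have hxa : ∀ x : {x | E x X}, E x.1 a ↔ x ∈ s := by
      intro x
      rw [ha]
      constructor
      · rintro ⟨y, hy, hyx⟩
        rwa [Subtype.ext hyx] at hy
      · intro hx
        exact ⟨x, hx, rfl⟩
    obtain ⟨ξ, h1, h2⟩ := h.found Z ⟨ρ x0, (hZ' _).2 ⟨(hρ x0).1, x0.1, x0.2,
      fun h => hx0 ((hxa x0).1 h), hρ x0⟩⟩
    obtain ⟨h3, x, hx, hxa', hxr⟩ := (hZ' ξ).1 h1
    have e : ξ = ρ ⟨x, hx⟩ := uniq x _ _ hxr (hρ ⟨x, hx⟩)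
    refine ⟨⟨x, hx⟩, fun h => hxa' ((hxa ⟨x, hx⟩).2 h), fun y hy => ?_⟩
    by_contra hys
    have h4 : E (ρ y) ξ := by rw [e]; exact hy
    exact h2 (ρ y) h4 ((hZ' _).2 ⟨(hρ y).1, y.1, y.2, fun h => hys ((hxa y).1 h), hρ y⟩)
  -- elements with exactly `k` predecessors
  have pred : ∀ k : ℕ, ∃ x, (P x).Finite ∧ (P x).ncard = k := by
    intro k
    let s : Set {x | E x X} := {x | (P x).Finite ∧ (P x).ncard < k}
    have hinj : Set.InjOn (fun x => (P x).ncard) s := by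
      intro x hx y hy hxy
      rcases Ptri x y with h1 | h1 | h1
      · exact absurd hxy (hlt x y hy.1 h1).ne
      · exact h1
      · exact absurd hxy.symm (hlt y x hx.1 h1).ne
    have hmaps : Set.MapsTo (fun x => (P x).ncard) s (Finset.range k : Set ℕ) :=
      fun x hx => by simpa using hx.2
    have hs : s.Finite := Set.Finite.of_finite_image
      ((Finset.finite_toSet (Finset.range k)).subset hmaps.image_subset) hinj
    have hcard : s.ncard ≤ k := by
      calc s.ncard = ((fun x => (P x).ncard) '' s).ncard := hinj.ncard_image.symm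
        _ ≤ (Finset.range k : Set ℕ).ncard :=
          Set.ncard_le_ncard hmaps.image_subset (Finset.finite_toSet _)
        _ = k := by rw [Set.ncard_coe_finset, Finset.card_range]
    obtain ⟨x, hx, hPx⟩ := least s hs
    have hfin : (P x).Finite := hs.subset hPx
    refine ⟨x, hfin, le_antisymm ((Set.ncard_le_ncard hPx hs).trans hcard) ?_⟩
    by_contra hlt
    exact hx ⟨hfin, not_le.1 hlt⟩
  obtain ⟨Y, hY⟩ := h.sep (.ex (.and (fIsRho 2 4 1 0) (.ex (.and (.all (.iff (.mem 0 1)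
    (.and (.mem 0 5) (.ex (.and (fIsRho 5 7 1 0) (.mem 0 3)))))) (fEvenSet 0)))))
    (cons O (cons X fun _ => f)) X
  have hY' : ∀ x, E x Y ↔ (E x X ∧ ∃ ξ, IsRho E O f x ξ ∧ ∃ W, (∀ y, E y W ↔ (E y X ∧
    ∃ η, IsRho E O f y η ∧ E η ξ)) ∧ EvenSet E W) := hY
  have key : ∀ x : {x | E x X}, (P x).Finite → (E x.1 Y ↔ Even (P x).ncard) := by
    intro x hx
    have hW : ∀ W, (∀ y, E y W ↔ (E y X ∧ ∃ η, IsRho E O f y η ∧ E η (ρ x))) →
        {y | E y W} = Subtype.val '' P x := by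
      intro W hW
      ext y
      constructor
      · intro hy
        obtain ⟨hyX, η, h1, h2⟩ := (hW y).1 hy
        have e : η = ρ ⟨y, hyX⟩ := uniq y _ _ h1 (hρ ⟨y, hyX⟩)
        rw [e] at h2
        exact ⟨⟨y, hyX⟩, h2, rfl⟩
      · rintro ⟨y, hy, rfl⟩
        exact (hW _).2 ⟨y.2, ρ y, hρ y, hy⟩
    have hc : (Subtype.val '' P x).ncard = (P x).ncard :=
      Set.ncard_image_of_injective _ Subtype.val_injective
    constructor
    · intro hxY
      obtain ⟨_, ξ, h1, W, h2, h3⟩ := (hY' _).1 hxY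
      have e : ξ = ρ x := uniq _ _ _ h1 (hρ x)
      subst e
      have e2 := hW W h2
      rw [h.evenSet_iff (by rw [e2]; exact hx.image _), e2, hc] at h3
      exact h3
    · intro hev
      obtain ⟨W, hW1⟩ := h.sep (.ex (.and (fIsRho 3 5 1 0) (.mem 0 2)))
        (cons (ρ x) (cons O (cons X fun _ => f))) X
      have hW2 : ∀ y, E y W ↔ (E y X ∧ ∃ η, IsRho E O f y η ∧ E η (ρ x)) := hW1
      have e2 := hW W hW2
      refine (hY' _).2 ⟨x.2, ρ x, hρ x, W, hW2, ?_⟩
      rw [h.evenSet_iff (by rw [e2]; exact hx.image _), e2, hc]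
      exact hev
  choose p hp1 hp2 using pred
  have pinj : Function.Injective fun k => (p k).1 := by
    intro k l hkl
    have : p k = p l := Subtype.ext hkl
    rw [← hp2 k, ← hp2 l, this]
  refine ⟨Y, fun x hx => ((hY' x).1 hx).1, ?_, ?_⟩
  · refine Set.infinite_of_injective_forall_mem (f := fun k : ℕ => (p (2 * k)).1)
      (fun k l hkl => ?_) fun k => ?_
    · have := pinj hkl
      omega
    · refine (key _ (hp1 _)).2 ?_
      rw [hp2]
      exact even_two_mul k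
  · refine Set.infinite_of_injective_forall_mem (f := fun k : ℕ => (p (2 * k + 1)).1)
      (fun k l hkl => ?_) fun k => ?_
    · have := pinj hkl
      omega
    · refine ⟨(p (2 * k + 1)).2, fun h1 => ?_⟩
      have := (key _ (hp1 _)).1 h1
      rw [hp2] at this
      exact (Nat.not_even_iff_odd.2 (odd_two_mul_add_one k)) this

end

end Pool.Agent.NSC
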