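import Mathlib

/-!
# Permutations preserving a colouring
-/

namespace Pool.Agent.NSC

section

variable {D : Type}

/-- two colourings with equinumerous fibres are conjugate -/
theorem exists_recolour {L : Type*} (f g : D → L)
    (h : ∀ l, Nonempty ({d | f d = l} ≃ {d | g d = l})) :
    ∃ σ : Equiv.Perm D, ∀ d, g (σ d) = f d := by
  have e := fun l => (h l).some
  let σ : D ≃ D := (Equiv.sigmaFiberEquiv f).symm.trans
    ((Equiv.sigmaCongrRight fun l => e l).trans (Equiv.sigmaFiberEquiv g))
  refine ⟨σ, fun d => ?_⟩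
  exact (e (f d) ⟨d, rfl⟩).2

theorem equiv_of_infinite [Countable D] {s t : Set D} (hs : s.Infinite) (ht : t.Infinite) :
    Nonempty (s ≃ t) := by
  have : Infinite s := hs.to_subtype
  have : Infinite t := ht.to_subtype
  obtain ⟨e⟩ := nonempty_equiv_of_countable (α := s) (β := t)
  exact ⟨e⟩

/-- copies of countable sets inside infinite sets -/
theorem exists_copy [Countable D] {s t : Set D} (ht : t.Infinite) :
    ∃ t' ⊆ t, Nonempty (s ≃ t') ∧ (t \ t').Infinite := by
  have : Infinite t := ht.to_subtype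
  obtain ⟨e⟩ := nonempty_equiv_of_countable (α := t) (β := ℕ ⊕ ℕ)
  obtain ⟨i, hi⟩ := Countable.exists_injective_nat s
  let j : s → D := fun x => (e.symm (Sum.inl (i x))).1
  have hj : Function.Injective j := by
    intro x y hxy
    have := Subtype.ext hxy
    exact hi (Sum.inl_injective (e.symm.injective this))
  refine ⟨Set.range j, ?_, ⟨Equiv.ofInjective j hj⟩, ?_⟩
  · rintro _ ⟨x, rfl⟩
    exact (e.symm (Sum.inl (i x))).2
  · refine Set.infinite_of_injective_forall_mem (f := fun n : ℕ => (e.symm (Sum.inr n)).1)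
      (fun n m hnm => ?_) fun n => ⟨(e.symm (Sum.inr n)).2, ?_⟩
    · exact Sum.inr_injective (e.symm.injective (Subtype.ext hnm))
    · rintro ⟨x, hx⟩
      have := e.symm.injective (Subtype.ext hx)
      exact Sum.inl_ne_inr this

variable {K : Type*}

/-- permutations preserving the colouring `col` which are the identity on `s` -/
def PFix (col : D → K) (s : Set D) : Subgroup (Equiv.Perm D) where
  carrier := {σ | (∀ d, col (σ d) = col d) ∧ ∀ d ∈ s, σ d = d}
  mul_mem' := by
    rintro σ τ ⟨h1, h2⟩ ⟨h3, h4⟩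
    refine ⟨fun d => ?_, fun d hd => ?_⟩
    · rw [Equiv.Perm.mul_apply, h1, h3]
    · rw [Equiv.Perm.mul_apply, h4 d hd, h2 d hd]
  one_mem' := ⟨fun d => rfl, fun d _ => rfl⟩
  inv_mem' := by
    rintro σ ⟨h1, h2⟩
    refine ⟨fun d => ?_, fun d hd => ?_⟩
    · have := h1 (σ⁻¹ d)
      rw [Equiv.Perm.coe_inv, Equiv.apply_symm_apply] at this
      exact this.symm
    · rw [Equiv.Perm.inv_eq_iff_eq, h2 d hd]

theorem mem_PFix {col : D → K} {s : Set D} {σ : Equiv.Perm D} :
    σ ∈ PFix col s ↔ (∀ d, col (σ d) = col d) ∧ ∀ d ∈ s, σ d = d := Iff.rfl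

/-- moving a set inside the complement of `c` -/
theorem exists_move (col : D → K) (c B B' : Set D) (hc : ∀ d ∈ c, (d ∈ B ↔ d ∈ B'))
    (h1 : ∀ k, Nonempty (({d | col d = k ∧ d ∉ c ∧ d ∈ B} : Set D) ≃
      ({d | col d = k ∧ d ∉ c ∧ d ∈ B'} : Set D)))
    (h2 : ∀ k, Nonempty (({d | col d = k ∧ d ∉ c ∧ d ∉ B} : Set D) ≃
      ({d | col d = k ∧ d ∉ c ∧ d ∉ B'} : Set D))) :
    ∃ σ ∈ PFix col c, ∀ d, (σ d ∈ B' ↔ d ∈ B) := by
  classical
  let f : D → K × Option D × Bool := fun d =>
    if d ∈ c then (col d, some d, true) else (col d, none, decide (d ∈ B))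
  let g : D → K × Option D × Bool := fun d =>
    if d ∈ c then (col d, some d, true) else (col d, none, decide (d ∈ B'))
  have fc : ∀ d, d ∈ c → f d = (col d, some d, true) := fun d hd => if_pos hd
  have fn : ∀ d, d ∉ c → f d = (col d, none, decide (d ∈ B)) := fun d hd => if_neg hd
  have gc : ∀ d, d ∈ c → g d = (col d, some d, true) := fun d hd => if_pos hd
  have gn : ∀ d, d ∉ c → g d = (col d, none, decide (d ∈ B')) := fun d hd => if_neg hd
  obtain ⟨σ, hσ⟩ := exists_recolour f g (by
    rintro ⟨k, _ | d, b⟩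
    · cases b with
      | true =>
        obtain ⟨e⟩ := h1 k
        have e1 : {d | f d = (k, none, true)} = {d | col d = k ∧ d ∉ c ∧ d ∈ B} := by
          ext d
          by_cases hd : d ∈ c
          · simp [fc d hd, hd]
          · simp [fn d hd, hd]
        have e2 : {d | g d = (k, none, true)} = {d | col d = k ∧ d ∉ c ∧ d ∈ B'} := by
          ext d
          by_cases hd : d ∈ c
          · simp [gc d hd, hd]
          · simp [gn d hd, hd]
        rw [e1, e2]
        exact ⟨e⟩
      | false =>
        obtain ⟨e⟩ := h2 k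
        have e1 : {d | f d = (k, none, false)} = {d | col d = k ∧ d ∉ c ∧ d ∉ B} := by
          ext d
          by_cases hd : d ∈ c
          · simp [fc d hd, hd]
          · simp [fn d hd, hd]
        have e2 : {d | g d = (k, none, false)} = {d | col d = k ∧ d ∉ c ∧ d ∉ B'} := by
          ext d
          by_cases hd : d ∈ c
          · simp [gc d hd, hd]
          · simp [gn d hd, hd]
        rw [e1, e2]
        exact ⟨e⟩
    · have e1 : {x | f x = (k, some d, b)} = {x | g x = (k, some d, b)} := by
        ext x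
        by_cases hx : x ∈ c
        · simp [fc x hx, gc x hx]
        · simp [fn x hx, gn x hx]
      rw [e1]
      exact ⟨Equiv.refl _⟩)
  have hσ1 : ∀ d ∈ c, σ d = d := by
    intro d hd
    have h := hσ d
    rw [fc d hd] at h
    by_cases hs : σ d ∈ c
    · rw [gc _ hs] at h
      have h' := (Prod.ext_iff.1 (Prod.ext_iff.1 h).2).1
      simpa using h'
    · rw [gn _ hs] at h
      simp at h
  have hσ2 : ∀ d, d ∉ c → σ d ∉ c := by
    intro d hd hs
    have h := hσ1 _ hs
    exact hd (by rwa [σ.injective h] at hs)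
  refine ⟨σ, ⟨fun d => ?_, hσ1⟩, fun d => ?_⟩
  · by_cases hd : d ∈ c
    · rw [hσ1 d hd]
    · have h := hσ d
      rw [fn d hd, gn _ (hσ2 d hd)] at h
      exact (Prod.ext_iff.1 h).1
  · by_cases hd : d ∈ c
    · rw [hσ1 d hd]
      exact (hc d hd).symm
    · have h := hσ d
      rw [fn d hd, gn _ (hσ2 d hd)] at h
      have h' := (Prod.ext_iff.1 (Prod.ext_iff.1 h).2).2
      simpa using h'

/-- permutations preserving the colouring `col` and the set `e` -/
def PSet (col : D → K) (e : Set D) : Subgroup (Equiv.Perm D) where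
  carrier := {σ | (∀ d, col (σ d) = col d) ∧ ∀ d, (σ d ∈ e ↔ d ∈ e)}
  mul_mem' := by
    rintro σ τ ⟨h1, h2⟩ ⟨h3, h4⟩
    refine ⟨fun d => ?_, fun d => ?_⟩
    · rw [Equiv.Perm.mul_apply, h1, h3]
    · rw [Equiv.Perm.mul_apply, h2, h4]
  one_mem' := ⟨fun d => rfl, fun d => Iff.rfl⟩
  inv_mem' := by
    rintro σ ⟨h1, h2⟩
    refine ⟨fun d => ?_, fun d => ?_⟩
    · have := h1 (σ⁻¹ d)
      rw [Equiv.Perm.coe_inv, Equiv.apply_symm_apply] at this
      exact this.symm
    · have := h2 (σ⁻¹ d)
      rw [Equiv.Perm.coe_inv, Equiv.apply_symm_apply] at this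
      exact this.symm

/-- generation of the group of colour preserving permutations -/
theorem perm_gen [Countable D] (col : D → K) (c e : Set D) (hce : c ⊆ e)
    (hcol : ∀ k, {d | col d = k}.Subsingleton ∨
      ({d | col d = k ∧ d ∈ e ∧ d ∉ c}.Infinite ∧ {d | col d = k ∧ d ∉ e}.Infinite))
    (H : Subgroup (Equiv.Perm D)) (h1 : PFix col c ≤ H) (h2 : PSet col e ≤ H)
    (σ : Equiv.Perm D) (hσ : ∀ d, col (σ d) = col d) : σ ∈ H := by
  classical
  -- it suffices to map `B = σ (eᶜ)` to `eᶜ` by an element of `H`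
  have main : ∀ B : Set D, (∀ k, {d | col d = k}.Subsingleton → ∀ d, col d = k →
      (d ∈ B ↔ d ∉ e)) → (∀ k, ¬ {d | col d = k}.Subsingleton →
      {d | col d = k ∧ d ∈ B}.Infinite ∧ {d | col d = k ∧ d ∉ B}.Infinite) →
      ∃ τ ∈ H, (∀ d, col (τ d) = col d) ∧ ∀ d, (τ d ∉ e ↔ d ∈ B) := by
    intro B hB1 hB2
    have good : ∀ k, ¬ {d | col d = k}.Subsingleton →
      ({d | col d = k ∧ d ∈ e ∧ d ∉ c}.Infinite ∧ {d | col d = k ∧ d ∉ e}.Infinite) :=
      fun k hk => (hcol k).resolve_left hk
    -- first step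
    let bad : K → Prop := fun k => ¬ {d | col d = k}.Subsingleton ∧
      {d | col d = k ∧ d ∈ e ∧ d ∉ B}.Finite
    let B1 : Set D := {d | if bad (col d) ∧ d ∉ c then d ∉ e else d ∈ B}
    have hB1b : ∀ d, bad (col d) → d ∉ c → (d ∈ B1 ↔ d ∉ e) := by
      intro d h h'
      show (if bad (col d) ∧ d ∉ c then d ∉ e else d ∈ B) ↔ d ∉ e
      rw [if_pos ⟨h, h'⟩]
    have hB1n : ∀ d, ¬ (bad (col d) ∧ d ∉ c) → (d ∈ B1 ↔ d ∈ B) := by
      intro d h
      show (if bad (col d) ∧ d ∉ c then d ∉ e else d ∈ B) ↔ d ∈ B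
      rw [if_neg h]
    obtain ⟨τ1, hτ1, hτ1B⟩ := exists_move col c B B1
      (fun d hd => (hB1n d fun h => h.2 hd).symm)
      (fun k => by
        by_cases hk : bad k
        · have e1 : {d | col d = k ∧ d ∉ c ∧ d ∈ B1} = {d | col d = k ∧ d ∉ e} := by
            ext d
            constructor
            · rintro ⟨rfl, hc, hd⟩
              exact ⟨rfl, (hB1b d hk hc).1 hd⟩
            · rintro ⟨rfl, hd⟩
              have hc : d ∉ c := fun h => hd (hce h)
              exact ⟨rfl, hc, (hB1b d hk hc).2 hd⟩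
          rw [e1]
          refine equiv_of_infinite ?_ (good k hk.1).2
          -- `B` contains almost all of `e \ c` in this class
          refine Set.Infinite.mono (s := {d | col d = k ∧ d ∈ e ∧ d ∉ c} \
            {d | col d = k ∧ d ∈ e ∧ d ∉ B}) ?_ ((good k hk.1).1.sdiff hk.2)
          rintro d ⟨⟨h3, h4, h5⟩, h6⟩
          refine ⟨h3, h5, ?_⟩
          by_contra h7
          exact h6 ⟨h3, h4, h7⟩
        · have e1 : {d | col d = k ∧ d ∉ c ∧ d ∈ B1} = {d | col d = k ∧ d ∉ c ∧ d ∈ B} := by
            ext d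
            refine and_congr_right fun h => and_congr_right fun _ => ?_
            subst h
            exact hB1n d fun h => hk h.1
          rw [e1]
          exact ⟨Equiv.refl _⟩)
      (fun k => by
        by_cases hk : bad k
        · have e1 : {d | col d = k ∧ d ∉ c ∧ d ∉ B1} = {d | col d = k ∧ d ∈ e ∧ d ∉ c} := by
            ext d
            constructor
            · rintro ⟨rfl, hc, hd⟩
              rw [hB1b d hk hc, not_not] at hd
              exact ⟨rfl, hd, hc⟩
            · rintro ⟨rfl, hd, hc⟩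
              refine ⟨rfl, hc, ?_⟩
              rw [hB1b d hk hc, not_not]
              exact hd
          rw [e1]
          refine equiv_of_infinite ?_ (good k hk.1).1
          refine Set.Infinite.mono (s := {d | col d = k ∧ d ∉ B} \
            {d | col d = k ∧ d ∈ e ∧ d ∉ B}) ?_ ((hB2 k hk.1).2.sdiff hk.2)
          rintro d ⟨⟨h3, h4⟩, h6⟩
          exact ⟨h3, fun h5 => h6 ⟨h3, hce h5, h4⟩, h4⟩
        · have e1 : {d | col d = k ∧ d ∉ c ∧ d ∉ B1} = {d | col d = k ∧ d ∉ c ∧ d ∉ B} := by
            ext d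
            refine and_congr_right fun h => and_congr_right fun _ => ?_
            subst h
            exact not_congr (hB1n d fun h => hk h.1)
          rw [e1]
          exact ⟨Equiv.refl _⟩)
    have inf1 : ∀ k, ¬ {d | col d = k}.Subsingleton →
        {d | col d = k ∧ d ∈ B1}.Infinite ∧ {d | col d = k ∧ d ∈ e ∧ d ∉ B1}.Infinite := by
      intro k hk
      by_cases hb : bad k
      · constructor
        · refine (good k hk).2.mono ?_
          rintro d ⟨rfl, hd⟩
          exact ⟨rfl, (hB1b d hb fun h => hd (hce h)).2 hd⟩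
        · refine (good k hk).1.mono ?_
          rintro d ⟨rfl, hd, hc⟩
          refine ⟨rfl, hd, ?_⟩
          rw [hB1b d hb hc, not_not]
          exact hd
      · constructor
        · refine (hB2 k hk).1.mono ?_
          rintro d ⟨rfl, hd⟩
          exact ⟨rfl, (hB1n d fun h => hb h.1).2 hd⟩
        · have : {d | col d = k ∧ d ∈ e ∧ d ∉ B}.Infinite := fun h => hb ⟨hk, h⟩
          refine this.mono ?_
          rintro d ⟨rfl, hd, hd'⟩
          exact ⟨rfl, hd, fun h => hd' ((hB1n d fun h => hb h.1).1 h)⟩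
    -- second step: move `B1 ∩ e` off `c`
    have ex2 : ∀ k, ∃ V ⊆ {d | col d = k ∧ d ∈ e ∧ d ∉ c}, ¬ {d | col d = k}.Subsingleton →
        Nonempty (({d | col d = k ∧ d ∈ e ∧ d ∈ B1} : Set D) ≃ V) ∧
        ({d | col d = k ∧ d ∈ e ∧ d ∉ c} \ V).Infinite := by
      intro k
      by_cases hk : {d | col d = k}.Subsingleton
      · exact ⟨∅, Set.empty_subset _, fun h => absurd hk h⟩
      · obtain ⟨V, h3, h4, h5⟩ := exists_copy (s := {d | col d = k ∧ d ∈ e ∧ d ∈ B1})
          (good k hk).1
        exact ⟨V, h3, fun _ => ⟨h4, h5⟩⟩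
    choose V hV1 hV2 using ex2
    let B2 : Set D := {d | if ¬ {d' | col d' = col d}.Subsingleton ∧ d ∈ e then d ∈ V (col d)
      else d ∈ B1}
    have hB2g : ∀ d, ¬ {d' | col d' = col d}.Subsingleton → d ∈ e →
        (d ∈ B2 ↔ d ∈ V (col d)) := by
      intro d h h'
      show (if ¬ {d' | col d' = col d}.Subsingleton ∧ d ∈ e then d ∈ V (col d)
        else d ∈ B1) ↔ _
      rw [if_pos ⟨h, h'⟩]
    have hB2n : ∀ d, ¬ (¬ {d' | col d' = col d}.Subsingleton ∧ d ∈ e) →
        (d ∈ B2 ↔ d ∈ B1) := by
      intro d h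
      show (if ¬ {d' | col d' = col d}.Subsingleton ∧ d ∈ e then d ∈ V (col d)
        else d ∈ B1) ↔ _
      rw [if_neg h]
    obtain ⟨τ2, hτ2, hτ2B⟩ := exists_move col eᶜ B1 B2
      (fun d hd => (hB2n d fun h => hd h.2).symm)
      (fun k => by
        by_cases hk : {d | col d = k}.Subsingleton
        · have e1 : {d | col d = k ∧ d ∉ eᶜ ∧ d ∈ B2} = {d | col d = k ∧ d ∉ eᶜ ∧ d ∈ B1} := by
            ext d
            refine and_congr_right fun h => and_congr_right fun _ => ?_
            subst h
            exact hB2n d fun h => h.1 hk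
          rw [e1]
          exact ⟨Equiv.refl _⟩
        · have e1 : {d | col d = k ∧ d ∉ eᶜ ∧ d ∈ B2} = V k := by
            ext d
            constructor
            · rintro ⟨rfl, hd, hd'⟩
              exact (hB2g d hk (by simpa using hd)).1 hd'
            · intro hd
              obtain ⟨rfl, h4, h5⟩ := hV1 k hd
              exact ⟨rfl, by simpa using h4, (hB2g d hk h4).2 hd⟩
          have e2 : {d | col d = k ∧ d ∉ eᶜ ∧ d ∈ B1} = {d | col d = k ∧ d ∈ e ∧ d ∈ B1} := by
            ext d
            simp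
          rw [e1, e2]
          exact (hV2 k hk).1)
      (fun k => by
        by_cases hk : {d | col d = k}.Subsingleton
        · have e1 : {d | col d = k ∧ d ∉ eᶜ ∧ d ∉ B2} = {d | col d = k ∧ d ∉ eᶜ ∧ d ∉ B1} := by
            ext d
            refine and_congr_right fun h => and_congr_right fun _ => ?_
            subst h
            exact not_congr (hB2n d fun h => h.1 hk)
          rw [e1]
          exact ⟨Equiv.refl _⟩
        · refine equiv_of_infinite ?_ ?_
          · refine (inf1 k hk).2.mono ?_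
            rintro d ⟨h3, h4, h5⟩
            exact ⟨h3, by simpa using h4, h5⟩
          · refine (hV2 k hk).2.mono ?_
            rintro d ⟨⟨rfl, h4, h5⟩, h6⟩
            exact ⟨rfl, by simpa using h4, fun h => h6 ((hB2g d hk h4).1 h)⟩)
    -- third step
    obtain ⟨τ3, hτ3, hτ3B⟩ := exists_move col c (B2 \ c) eᶜ
      (fun d hd => ⟨fun h => absurd hd h.2, fun h => absurd (hce hd) h⟩)
      (fun k => by
        by_cases hk : {d | col d = k}.Subsingleton
        · have e1 : {d | col d = k ∧ d ∉ c ∧ d ∈ B2 \ c} = {d | col d = k ∧ d ∉ c ∧ d ∈ eᶜ} := by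
            ext d
            refine and_congr_right fun h => and_congr_right fun hc => ?_
            subst h
            rw [Set.mem_sdiff, hB2n d fun h => h.1 hk, hB1n d fun h => h.1.1 hk,
              hB1 _ hk d rfl]
            simp [hc]
          rw [e1]
          exact ⟨Equiv.refl _⟩
        · refine equiv_of_infinite ?_ ?_
          · by_cases hfin : {d | col d = k ∧ d ∉ e ∧ d ∈ B1}.Infinite
            · refine hfin.mono ?_
              rintro d ⟨rfl, h4, h5⟩
              have hc : d ∉ c := fun h => h4 (hce h)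
              exact ⟨rfl, hc, (hB2n d fun h => h4 h.2).2 h5, hc⟩
            · have h3 : {d | col d = k ∧ d ∈ e ∧ d ∈ B1}.Infinite := by
                intro h3
                apply (inf1 k hk).1
                refine ((Set.not_infinite.1 hfin).union h3).subset ?_
                rintro d ⟨h4, h5⟩
                by_cases h6 : d ∈ e
                · exact Or.inr ⟨h4, h6, h5⟩
                · exact Or.inl ⟨h4, h6, h5⟩
              obtain ⟨i⟩ := (hV2 k hk).1
              have : Infinite {d | col d = k ∧ d ∈ e ∧ d ∈ B1} := h3.to_subtype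
              have hVinf : (V k).Infinite := Set.infinite_coe_iff.1 (Infinite.of_injective i
                i.injective)
              refine hVinf.mono ?_
              intro d hd
              obtain ⟨rfl, h4, h5⟩ := hV1 k hd
              exact ⟨rfl, h5, (hB2g d hk h4).2 hd, h5⟩
          · refine (good k hk).2.mono ?_
            rintro d ⟨h3, h4⟩
            exact ⟨h3, fun h => h4 (hce h), h4⟩)
      (fun k => by
        by_cases hk : {d | col d = k}.Subsingleton
        · have e1 : {d | col d = k ∧ d ∉ c ∧ d ∉ B2 \ c} = {d | col d = k ∧ d ∉ c ∧ d ∉ eᶜ} := by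
            ext d
            refine and_congr_right fun h => and_congr_right fun hc => ?_
            subst h
            rw [Set.mem_sdiff, hB2n d fun h => h.1 hk, hB1n d fun h => h.1.1 hk,
              hB1 _ hk d rfl]
            simp [hc]
          rw [e1]
          exact ⟨Equiv.refl _⟩
        · refine equiv_of_infinite ?_ ?_
          · refine (hV2 k hk).2.mono ?_
            rintro d ⟨⟨rfl, h4, h5⟩, h6⟩
            exact ⟨rfl, h5, fun h => h6 ((hB2g d hk h4).1 h.1)⟩
          · refine (good k hk).1.mono ?_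
            rintro d ⟨h3, h4, h5⟩
            exact ⟨h3, h5, by simpa using h4⟩)
    have hB2c : ∀ d, d ∈ B2 → d ∉ c := by
      intro d hd hc
      have he : d ∈ e := hce hc
      by_cases hk : {d' | col d' = col d}.Subsingleton
      · rw [hB2n d fun h => h.1 hk, hB1n d fun h => h.1.1 hk, hB1 _ hk d rfl] at hd
        exact hd he
      · rw [hB2g d hk he] at hd
        exact (hV1 _ hd).2.2 hc
    have hτ2' : τ2 ∈ PSet col e := by
      refine ⟨hτ2.1, fun d => ?_⟩
      constructor
      · intro h
        by_contra hd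
        rw [hτ2.2 d hd] at h
        exact hd h
      · intro h
        by_contra hd
        have := hτ2.2 _ hd
        rw [τ2.injective this] at hd
        exact hd h
    refine ⟨τ3 * τ2 * τ1, H.mul_mem (H.mul_mem (h1 hτ3) (h2 hτ2')) (h1 hτ1), fun d => ?_,
      fun d => ?_⟩
    · rw [Equiv.Perm.mul_apply, Equiv.Perm.mul_apply, hτ3.1, hτ2.1, hτ1.1]
    rw [Equiv.Perm.mul_apply, Equiv.Perm.mul_apply]
    rw [← hτ1B, ← hτ2B]
    have h3 := hτ3B (τ2 (τ1 d))
    rw [Set.mem_compl_iff, Set.mem_sdiff] at h3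
    rw [h3]
    exact ⟨fun h => h.1, fun h => ⟨h, hB2c _ h⟩⟩
  have hss : ∀ k, {d | col d = k}.Subsingleton → ∀ d, col d = k → σ d = d := by
    intro k hk d hd
    exact hk (show col (σ d) = k by rw [hσ, hd]) hd
  have hσs : ∀ d, col (σ.symm d) = col d := fun d => by
    have := hσ (σ.symm d)
    rw [Equiv.apply_symm_apply] at this
    exact this.symm
  obtain ⟨τ, hτ, hτc, hτB⟩ := main {d | σ.symm d ∉ e} (fun k hk d hd => by
      have : σ.symm d = d := by
        rw [Equiv.symm_apply_eq]
        exact (hss k hk d hd).symm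
      show σ.symm d ∉ e ↔ d ∉ e
      rw [this]) (fun k hk => by
      obtain ⟨h3, h4⟩ := (hcol k).resolve_left hk
      constructor
      · refine (h4.image σ.injective.injOn).mono ?_
        rintro _ ⟨d, ⟨h5, h6⟩, rfl⟩
        refine ⟨by rw [hσ, h5], ?_⟩
        show σ.symm (σ d) ∉ e
        rw [Equiv.symm_apply_apply]
        exact h6
      · refine (h3.image σ.injective.injOn).mono ?_
        rintro _ ⟨d, ⟨h5, h6, _⟩, rfl⟩
        refine ⟨by rw [hσ, h5], ?_⟩
        show ¬ (σ.symm (σ d) ∉ e)
        rw [Equiv.symm_apply_apply, not_not]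
        exact h6)
  have hm : τ * σ ∈ H := by
    refine h2 ⟨fun d => by rw [Equiv.Perm.mul_apply, hτc, hσ], fun d => ?_⟩
    have h3 := hτB (σ d)
    rw [Set.mem_ofPred_eq, Equiv.symm_apply_apply] at h3
    rw [Equiv.Perm.mul_apply]
    exact not_iff_not.1 h3
  have h4 := H.mul_mem (H.inv_mem hτ) hm
  rwa [inv_mul_cancel_left] at h4

end

end Pool.Agent.NSC
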