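import Pool.Agent.Sym.Cohen
import Pool.Agent.NSC.Perm

/-!
# Names of ground model sets of columns, homogeneity
-/

namespace Pool.Agent.NSC

open Pool.Agent.BVM Pool.Agent.Sym Pool.Agent.Forcing Pool.Agent.LadderTree

/-- the set of all `X_d` with `d ∈ b` -/
noncomputable def blkN (b : Set ℕ) : BSet (RO Cond) := chk fun d : b => XdN d.1

theorem memv_blkN (b : Set ℕ) (z : BSet (RO Cond)) : memv z (blkN b) = ⨆ d : b, eqv z (XdN d.1) :=
  memv_chk _ _

theorem actN_blkN (x : Gp) (b : Set ℕ) :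
    eqv (actN CS x (blkN b)) (blkN (x.g '' b)) = ⊤ := by
  rw [blkN, actN_chk, blkN]
  refine eqv_chk_reindex _ _ (fun d => ⟨x.g d.1, d.1, d.2, rfl⟩)
    (fun d => ⟨x.g⁻¹ d.1, by
      obtain ⟨e, he, h⟩ := d.2
      rw [← h, perm_inv_apply]
      exact he⟩) (fun d => actN_XdN x d.1) (fun d => ?_)
  have := actN_XdN x (x.g⁻¹ d.1)
  rwa [perm_apply_inv] at this

/-- a support for `blkN b` -/
noncomputable def bSpt (b : Set ℕ) : Spt := by
  classical
  exact ⟨∅, ∅, fun d => if d ∈ b then 1 else 0, by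
    refine (Set.toFinite ({0, 1} : Set ℕ)).subset ?_
    rintro _ ⟨d, rfl⟩
    show (if d ∈ b then 1 else 0) ∈ ({0, 1} : Set ℕ)
    split_ifs <;> simp⟩

theorem image_of_fix {b : Set ℕ} {x : Gp} (hx : x ∈ (bSpt b).fix) : x.g '' b = b := by
  classical
  have h : ∀ d, x.g d ∈ b ↔ d ∈ b := by
    intro d
    have h1 : (if x.g d ∈ b then 1 else 0) = (if d ∈ b then 1 else 0) := hx.2.2 d
    by_cases h2 : x.g d ∈ b <;> by_cases h3 : d ∈ b <;> simp_all
  ext d
  constructor
  · rintro ⟨e, he, rfl⟩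
    exact (h e).2 he
  · intro hd
    refine ⟨x.g⁻¹ d, ?_, perm_apply_inv _ _⟩
    rw [← h, perm_apply_inv]
    exact hd

theorem hs_blkN (b : Set ℕ) : HS CS (blkN b) := by
  refine ⟨⟨bSpt b, fun x hx => ?_⟩, fun d => hs_XdN d.1⟩
  have := actN_blkN x b
  rwa [image_of_fix hx] at this

/-- the set of all `X_d` with `d ∈ b` as a hereditarily symmetric name -/
noncomputable def blk (b : Set ℕ) : HN CS := ⟨blkN b, hs_blkN b⟩

/-- homogeneity -/
theorem exists_hom (v : ℕ → HN CS) (n : ℕ) : ∃ (F : Finset ℕ) (col : ℕ → ℕ),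
    (Set.range col).Finite ∧ ∀ σ ∈ PFix col (F : Set ℕ), ∀ (φ : Fml) (w w' : ℕ → HN CS),
      (∀ i, i < fvb φ → (w i = w' i ∧ ∃ j, j < n ∧ w i = v j) ∨
        ∃ b : Set ℕ, w i = blk b ∧ w' i = blk (σ '' b)) → valS CS φ w = valS CS φ w' := by
  obtain ⟨E, hE⟩ := exists_supp CS v n
  refine ⟨E.T ∪ E.S, E.c, E.fin, fun σ hσ φ w w' h => ?_⟩
  set T := E.T ∪ E.S with hT
  -- invariance under flips
  have inv : Inv T (valS CS φ w) := by
    intro a ha
    have haE : a ∈ E.fix := by
      refine ⟨fun t ht => ha.triv t (Finset.mem_union_left _ ht), fun s _ => ?_, fun e => ?_⟩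
      · rw [ha.1]; rfl
      · rw [ha.1]; rfl
    rw [← valS_act]
    have e1 : valS CS φ (fun i => HN.act CS a (w i)) =
        valS CS φ (fun i => if i < fvb φ then HN.act CS a (w i) else w i) := by
      refine valR_agree CS φ _ _ fun i hi => ?_
      simp only [if_pos hi]
    rw [e1]
    refine valR_eq_of CS φ fun i => ?_
    by_cases hi : i < fvb φ
    · simp only [if_pos hi]
      rcases h i hi with ⟨_, j, hj, hw⟩ | ⟨b, hw, _⟩
      · rw [hw]
        exact hE j hj a haE
      · rw [hw]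
        have := actN_blkN a b
        rw [ha.1] at this
        have e2 : ((1 : Equiv.Perm ℕ) : ℕ → ℕ) '' b = b := by
          rw [Equiv.Perm.coe_one, Set.image_id]
        rw [e2] at this
        exact this
    · simp only [if_neg hi]
      exact eqv_refl _
  let g : Gp := ⟨σ, fun _ _ => false⟩
  have hg : Triv T g := fun t ht => ⟨hσ.2 t ht, fun _ => rfl⟩
  have hgE : g ∈ E.fix := ⟨fun t ht => hg t (Finset.mem_union_left _ ht),
    fun s hs => (hg s (Finset.mem_union_right _ hs)).1, hσ.1⟩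
  rw [← inv.act_eq hg, ← valS_act]
  have e1 : valS CS φ (fun i => HN.act CS g (w i)) =
      valS CS φ (fun i => if i < fvb φ then HN.act CS g (w i) else w' i) := by
    refine valR_agree CS φ _ _ fun i hi => ?_
    simp only [if_pos hi]
  rw [e1]
  refine valR_eq_of CS φ fun i => ?_
  by_cases hi : i < fvb φ
  · simp only [if_pos hi]
    rcases h i hi with ⟨hw', j, hj, hw⟩ | ⟨b, hw, hw'⟩
    · rw [← hw', hw]
      exact hE j hj g hgE
    · rw [hw, hw']
      exact actN_blkN g b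
  · simp only [if_neg hi]
    exact eqv_refl _

/-- finitely many values can be decided -/
theorem exists_decide (s : Set (RO Cond)) (hs : s.Finite) (p : Cond) :
    ∃ q, q ≤ p ∧ ∀ b ∈ s, Forc q b ∨ Forc q bᶜ := by
  induction s, hs using Set.Finite.induction_on with
  | empty => exact ⟨p, le_rfl, fun b hb => hb.elim⟩
  | @insert a s _ _ ih =>
    obtain ⟨q, hq, h⟩ := ih
    obtain ⟨r, hr, h'⟩ := forc_decide q a
    refine ⟨r, hr.trans hq, fun b hb => ?_⟩
    rcases Set.mem_insert_iff.1 hb with rfl | hb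
    · exact h'
    · rcases h b hb with h1 | h1
      · exact Or.inl (h1.mono hr)
      · exact Or.inr (h1.mono hr)

/-- the values of `X_d ∈ T` -/
theorem finite_values (T : HN CS) : (Set.range fun d => memv (XdN d) T.1).Finite := by
  obtain ⟨E, hE⟩ := T.2.supp
  set F := E.T ∪ E.S with hF
  have inv : ∀ d, Inv F (memv (XdN d) T.1) := by
    intro d a ha
    have haE : a ∈ E.fix := by
      refine ⟨fun t ht => ha.triv t (Finset.mem_union_left _ ht), fun s _ => ?_, fun e => ?_⟩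
      · rw [ha.1]; rfl
      · rw [ha.1]; rfl
    rw [hE.memv CS haE]
    have := actN_XdN a d
    rw [ha.1] at this
    exact Congr.eq_of (Congr.mem_right T.1) this
  have same : ∀ d d', d ∉ F → d' ∉ F → E.c d = E.c d' →
      memv (XdN d) T.1 = memv (XdN d') T.1 := by
    intro d d' hd hd' hc
    let g : Gp := ⟨Equiv.swap d d', fun _ _ => false⟩
    have hg : Triv F g := by
      intro t ht
      refine ⟨?_, fun _ => rfl⟩
      refine Equiv.swap_apply_of_ne_of_ne ?_ ?_
      · rintro rfl; exact hd ht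
      · rintro rfl; exact hd' ht
    have hgE : g ∈ E.fix := by
      refine ⟨fun t ht => hg t (Finset.mem_union_left _ ht),
        fun s hs => (hg s (Finset.mem_union_right _ hs)).1, fun e => ?_⟩
      show E.c (Equiv.swap d d' e) = E.c e
      by_cases h1 : e = d
      · subst h1
        rw [Equiv.swap_apply_left, hc]
      · by_cases h2 : e = d'
        · subst h2
          rw [Equiv.swap_apply_right, hc]
        · rw [Equiv.swap_apply_of_ne_of_ne h1 h2]
    rw [← (inv d).act_eq hg, hE.memv CS hgE]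
    have := actN_XdN g d
    rw [show g.g d = d' from Equiv.swap_apply_left d d'] at this
    exact Congr.eq_of (Congr.mem_right T.1) this
  have h1 : (Set.range fun d => memv (XdN d) T.1) ⊆ (fun d => memv (XdN d) T.1) '' (F : Set ℕ) ∪
      (fun d => memv (XdN d) T.1) '' ((F : Set ℕ)ᶜ) := by
    rintro _ ⟨d, rfl⟩
    by_cases hd : d ∈ F
    · exact Or.inl ⟨d, hd, rfl⟩
    · exact Or.inr ⟨d, hd, rfl⟩
  refine Set.Finite.subset (Set.Finite.union (F.finite_toSet.image _) ?_) h1
  -- one value for each colour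
  have h2 : ∀ k : Set.range E.c, ∃ b : RO Cond, ∀ d, d ∉ F → E.c d = k.1 →
      memv (XdN d) T.1 = b := by
    rintro ⟨k, _⟩
    by_cases h : ∃ d, d ∉ F ∧ E.c d = k
    · obtain ⟨d, hd, rfl⟩ := h
      exact ⟨memv (XdN d) T.1, fun d' hd' hc => same d' d hd' hd hc⟩
    · exact ⟨⊥, fun d hd hc => absurd ⟨d, hd, hc⟩ h⟩
  choose f hf using h2
  have : Finite (Set.range E.c) := E.fin
  refine (Set.finite_range f).subset ?_
  rintro _ ⟨d, hd, rfl⟩
  exact ⟨⟨E.c d, d, rfl⟩, (hf ⟨E.c d, d, rfl⟩ d hd rfl).symm⟩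

/-- subsets of the set of all `X_d` come from the ground model -/
theorem sub_blk (T : HN CS) :
    (⨅ z : HN CS, memv z.1 T.1 ⇨ memv z.1 (blkN Set.univ)) ≤ ⨆ b : Set ℕ, eqv T.1 (blkN b) := by
  rw [forc_le_iff]
  intro p hp
  rw [forc_iSup]
  intro q0 hq0
  obtain ⟨q, hq, hdec⟩ := exists_decide _ (finite_values T) q0
  refine ⟨q, hq, {d | Forc q (memv (XdN d) T.1)}, ?_⟩
  refine forc_le_iff.1 (ext_leS CS T.mh (HN.mh CS (blk _))) q ?_
  rw [forc_iInf]
  intro z
  rw [forc_inf, forc_himp, forc_himp]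
  constructor
  · intro r hr hrz
    have h1 : Forc r (memv z.1 (blkN Set.univ)) := by
      have h2 := forc_iInf.1 hp z
      exact forc_himp.1 h2 r (hr.trans (hq.trans hq0)) hrz
    show Forc r (memv z.1 (blkN _))
    rw [memv_blkN] at h1 ⊢
    rw [forc_iSup] at h1 ⊢
    intro s hs
    obtain ⟨t, ht, ⟨d, _⟩, hd⟩ := h1 s hs
    have hd' : Forc t (eqv z.1 (XdN d)) := hd
    have h3 : Forc t (memv (XdN d) T.1) :=
      forc_le_iff.1 (memv_congr_left _ _ _) t (forc_inf.2 ⟨hd', hrz.mono (ht.trans hs)⟩)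
    have h4 : Forc q (memv (XdN d) T.1) := by
      rcases hdec _ ⟨d, rfl⟩ with h | h
      · exact h
      · exact absurd h3 (forc_compl.1 h t (ht.trans (hs.trans hr)))
    exact ⟨t, ht, ⟨d, h4⟩, hd'⟩
  · intro r hr hrz
    have hrz' : Forc r (memv z.1 (blkN {d | Forc q (memv (XdN d) T.1)})) := hrz
    rw [memv_blkN, forc_iSup] at hrz'
    rw [forc_iff_dense]
    intro s hs
    obtain ⟨t, ht, ⟨d, hd⟩, hzd⟩ := hrz' s hs
    refine ⟨t, ht, ?_⟩
    have hzd' : Forc t (eqv z.1 (XdN d)) := hzd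
    refine forc_le_iff.1 (memv_congr_left (XdN d) z.1 T.1) t (forc_inf.2 ⟨?_, ?_⟩)
    · rw [eqv_symm]; exact hzd'
    · exact (show Forc q (memv (XdN d) T.1) from hd).mono (ht.trans (hs.trans hr))

end Pool.Agent.NSC
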