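import Pool.Agent.NSC.Par

/-!
# No infinite families of traces over the ground model set of all `X_d`
-/

namespace Pool.Agent.NSC

open Pool.Agent.BVM Pool.Agent.Sym Pool.Agent.Forcing Pool.Agent.LadderTree Pool.Agent.GenMod

/-- the element `x` is given by the name `y` -/
def Rep (Γ : HGen CS) (x : Γ.Γ.N) (y : HN CS) : Prop :=
  ∃ i, x = Γ.Γ.cl i ∧ Γ.Γ.F.U (eqv (Γ.Γ.xs i).1 y.1)

section

variable {Γ : HGen CS}

theorem IsPar.rep {x : HN CS} (h : IsPar Γ x) : Rep Γ (par Γ x) x := by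
  obtain ⟨i, h1, h2⟩ := h.exists_cl
  refine ⟨i, h1, ?_⟩
  rw [h2, eqv_refl]
  exact Γ.Γ.F.top

theorem uf_finset_inf {B ι : Type} [CompleteBooleanAlgebra B] (F : UF B) (s : Finset ι)
    (f : ι → B) : F.U (s.inf f) ↔ ∀ i ∈ s, F.U (f i) := by
  classical
  induction s using Finset.induction_on with
  | empty => simpa using F.top
  | insert a s _ ih =>
    rw [Finset.inf_insert, F.inf_iff, ih]
    simp

/-- truth and representations -/
theorem rep_los (φ : Fml) (l : ℕ → Γ.Γ.N) (w : ℕ → HN CS)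
    (h : ∀ k, k < fvb φ → Rep Γ (l k) (w k)) : Sat Γ.Γ.E φ l ↔ Γ.Γ.F.U (valS CS φ w) := by
  have h' : ∀ k, ∃ i, l k = Γ.Γ.cl i ∧ (k < fvb φ → Γ.Γ.F.U (eqv (Γ.Γ.xs i).1 (w k).1)) := by
    intro k
    by_cases hk : k < fvb φ
    · obtain ⟨i, h1, h2⟩ := h k hk
      exact ⟨i, h1, fun _ => h2⟩
    · obtain ⟨i, hi⟩ := Gen.exists_rep (l k)
      exact ⟨i, hi.symm, fun h => absurd h hk⟩
  choose i hi hi' using h'
  have e : l = fun k => Γ.Γ.cl (i k) := funext hi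
  rw [e, Gen.los, hstr_val]
  set b := (Finset.range (fvb φ)).inf fun k => eqv (Γ.Γ.xs (i k)).1 (w k).1 with hb
  have hbU : Γ.Γ.F.U b := (uf_finset_inf _ _ _).2 fun k hk => hi' k (Finset.mem_range.1 hk)
  set w' : ℕ → HN CS := fun k => if k < fvb φ then w k else Γ.Γ.xs (i k) with hw'
  have e1 : valS CS φ w = valS CS φ w' := by
    refine valR_agree CS φ _ _ fun k hk => ?_
    simp only [hw', if_pos hk]
  have le1 : ∀ k, b ≤ eqv (Γ.Γ.xs (i k)).1 (w' k).1 := by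
    intro k
    by_cases hk : k < fvb φ
    · simp only [hw', if_pos hk]
      exact Finset.inf_le (Finset.mem_range.2 hk)
    · simp only [hw', if_neg hk]
      rw [eqv_refl]
      exact le_top
  rw [e1]
  constructor
  · intro h
    exact Γ.Γ.F.mono (valR_congr CS φ _ _ b le1) (Γ.Γ.F.inf hbU h)
  · intro h
    exact Γ.Γ.F.mono (valR_congr CS φ _ _ b fun k => (le1 k).trans (eqv_symm _ _).le)
      (Γ.Γ.F.inf hbU h)

/-- enough parameters -/
structure Rich (Γ : HGen CS) : Prop where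
  hD : IsPar Γ (blk Set.univ)
  hX : ∀ d, IsPar Γ (Xd d)
  hQ : ∀ i, Γ.Γ.F.U (⨆ b : Set ℕ, eqv (Γ.Γ.xs i).1 (blkN b)) →
    ∃ b, Γ.Γ.F.U (eqv (Γ.Γ.xs i).1 (blkN b))

theorem exists_rich (s : Set (HN CS)) (hs : s.Countable) (c : RO Cond) (hc : c ≠ ⊥) :
    ∃ Γ : HGen CS, Γ.Γ.F.U c ∧ (∀ x ∈ s, IsPar Γ x) ∧ Rich Γ := by
  obtain ⟨Γ, h1, h2, h3⟩ := exists_hgen' (s ∪ ({blk Set.univ} ∪ Set.range Xd))
    (hs.union ((Set.countable_singleton _).union (Set.countable_range _)))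
    (fun x => Set.range fun b : Set ℕ => eqv x.1 (blkN b)) c hc
  refine ⟨Γ, h1, fun x hx => h2 x (Or.inl hx), h2 _ (Or.inr (Or.inl rfl)),
    fun d => h2 _ (Or.inr (Or.inr ⟨d, rfl⟩)), fun i hi => ?_⟩
  obtain ⟨_, ⟨b, rfl⟩, hb⟩ := h3 i hi
  exact ⟨b, hb⟩

theorem le_of_rich (s : Set (HN CS)) (hs : s.Countable) (c b : RO Cond)
    (h : ∀ Γ : HGen CS, Rich Γ → Γ.Γ.F.U c → (∀ x ∈ s, IsPar Γ x) → Γ.Γ.F.U b) : c ≤ b := by
  by_contra hcon
  have hc : c ⊓ bᶜ ≠ ⊥ := by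
    intro h1
    apply hcon
    rwa [← sdiff_eq, sdiff_eq_bot_iff] at h1
  obtain ⟨Γ, h1, h2, h3⟩ := exists_rich s hs _ hc
  rw [Γ.Γ.F.inf_iff, Γ.Γ.F.compl_iff] at h1
  exact h1.2 (h Γ h3 h1.1 h2)

variable (hR : Rich Γ)
include hR

theorem Rich.isX (d : ℕ) : IsX Γ (par Γ (Xd d)) d := (hR.hX d).isX

/-- subsets of the set of all `X_d` -/
theorem Rich.exists_isB {T : Γ.Γ.N} (hT : Sub Γ.Γ.E T (par Γ (blk Set.univ))) :
    ∃ b, IsB Γ T b := by
  obtain ⟨i, rfl⟩ := Gen.exists_rep T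
  have h1 : Sat Γ.Γ.E (fSub 0 1) (cons (Γ.Γ.cl i) fun _ => par Γ (blk Set.univ)) := hT
  rw [rep_los (fSub 0 1) _ (cons (Γ.Γ.xs i) fun _ => blk Set.univ) (fun k _ => by
    cases k with
    | zero =>
      refine ⟨i, rfl, ?_⟩
      show Γ.Γ.F.U (eqv (Γ.Γ.xs i).1 (Γ.Γ.xs i).1)
      rw [eqv_refl]
      exact Γ.Γ.F.top
    | succ k => exact hR.hD.rep)] at h1
  have h2 : valS CS (fSub 0 1) (cons (Γ.Γ.xs i) fun _ => blk Set.univ) =
      ⨅ z : HN CS, memv z.1 (Γ.Γ.xs i).1 ⇨ memv z.1 (blkN Set.univ) := by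
    rw [fSub, valS_all]
    rfl
  rw [h2] at h1
  obtain ⟨b, hb⟩ := hR.hQ i (Γ.Γ.F.mono (sub_blk _) h1)
  exact ⟨b, i, rfl, hb⟩

theorem Rich.sub_iff {T T' : Γ.Γ.N} {b b' : Set ℕ} (hT : IsB Γ T b) (hT' : IsB Γ T' b') :
    Sub Γ.Γ.E T T' ↔ b ⊆ b' := by
  constructor
  · intro h d hd
    have h1 := h (par Γ (Xd d)) ((mem_isB hR.hD hT).2 ⟨d, hd, hR.isX d⟩)
    obtain ⟨d', hd', h2⟩ := (mem_isB hR.hD hT').1 h1
    rwa [(hR.isX d).unique h2]
  · intro h x hx
    obtain ⟨d, hd, h1⟩ := (mem_isB hR.hD hT).1 hx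
    exact (mem_isB hR.hD hT').2 ⟨d, h hd, h1⟩

theorem Rich.infinite_iff {T : Γ.Γ.N} {b : Set ℕ} (hT : IsB Γ T b) :
    {x | Γ.Γ.E x T}.Infinite ↔ b.Infinite := by
  have e : {x | Γ.Γ.E x T} = (fun d => par Γ (Xd d)) '' b := by
    ext x
    constructor
    · intro hx
      obtain ⟨d, hd, h1⟩ := (mem_isB hR.hD hT).1 hx
      exact ⟨d, hd, (hR.isX d).inj h1⟩
    · rintro ⟨d, hd, rfl⟩
      exact (mem_isB hR.hD hT).2 ⟨d, hd, hR.isX d⟩
  rw [e, Set.infinite_image_iff]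
  intro d _ d' _ h
  have h1 := hR.isX d
  rw [show par Γ (Xd d) = par Γ (Xd d') from h] at h1
  exact h1.unique (hR.isX d')

theorem Rich.disj {T T' : Γ.Γ.N} {b b' : Set ℕ} (hT : IsB Γ T b) (hT' : IsB Γ T' b')
    (h : ∀ x, ¬ (Γ.Γ.E x T ∧ Γ.Γ.E x T')) : Disjoint b b' := by
  rw [Set.disjoint_left]
  intro d hd hd'
  exact h (par Γ (Xd d)) ⟨(mem_isB hR.hD hT).2 ⟨d, hd, hR.isX d⟩,
    (mem_isB hR.hD hT').2 ⟨d, hd', hR.isX d⟩⟩

end

/-- formula: no member of `C` contains both `T1` and `T2` -/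
def fB : Fml := .all (.imp (.mem 0 3) (.neg (.and (.mem 1 0) (.mem 2 0))))

/-- the value of `no member of C contains both b and c` -/
noncomputable def beta (C : HN CS) (b c : Set ℕ) : RO Cond :=
  valS CS fB (cons (blk b) (cons (blk c) fun _ => C))

/-- the value of `C` is a family of traces -/
noncomputable def famv (C : HN CS) : RO Cond := valS CS (fFam 0 1) (cons C fun _ => blk Set.univ)

theorem famv_iff {Γ : HGen CS} (hR : Rich Γ) {C' : Γ.Γ.N} {C : HN CS} (hC : Rep Γ C' C) :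
    Γ.Γ.F.U (famv C) ↔ Fam Γ.Γ.E C' (par Γ (blk Set.univ)) := by
  rw [famv, ← rep_los (fFam 0 1) (cons C' fun _ => par Γ (blk Set.univ)) _ (fun k _ => by
    cases k with
    | zero => exact hC
    | succ k => exact hR.hD.rep), sat_fFam]
  rfl

theorem beta_iff {Γ : HGen CS} {C' T1 T2 : Γ.Γ.N} {C : HN CS} {b c : Set ℕ} (hC : Rep Γ C' C)
    (h1 : IsB Γ T1 b) (h2 : IsB Γ T2 c) : Γ.Γ.F.U (beta C b c) ↔
      ∀ c'', Γ.Γ.E c'' C' → ¬ (Γ.Γ.E T1 c'' ∧ Γ.Γ.E T2 c'') := by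
  rw [beta, ← rep_los fB (cons T1 (cons T2 fun _ => C')) _ (fun k _ => by
    rcases k with _ | _ | k
    · exact h1
    · exact h2
    · exact hC)]
  rfl

theorem memv_iff {Γ : HGen CS} {x y : Γ.Γ.N} {x' y' : HN CS} (hx : Rep Γ x x')
    (hy : Rep Γ y y') : Γ.Γ.F.U (memv x'.1 y'.1) ↔ Γ.Γ.E x y := by
  have := rep_los (Γ := Γ) (.mem 0 1) (cons x fun _ => y) (cons x' fun _ => y') (fun k _ => by
    cases k with
    | zero => exact hx
    | succ k => exact hy)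
  exact this.symm

theorem eqv_iff {Γ : HGen CS} {x y : Γ.Γ.N} {x' y' : HN CS} (hx : Rep Γ x x')
    (hy : Rep Γ y y') : Γ.Γ.F.U (eqv x'.1 y'.1) ↔ x = y := by
  have := rep_los (Γ := Γ) (.eq 0 1) (cons x fun _ => y) (cons x' fun _ => y') (fun k _ => by
    cases k with
    | zero => exact hx
    | succ k => exact hy)
  exact this.symm

/-- moving two disjoint infinite subsets of a class -/
theorem exists_move2 (col : ℕ → ℕ) (F : Set ℕ) (k : ℕ) {b c b' c' : Set ℕ}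
    (hb : b ⊆ {d | d ∉ F ∧ col d = k}) (hc : c ⊆ {d | d ∉ F ∧ col d = k})
    (hb' : b' ⊆ {d | d ∉ F ∧ col d = k}) (hc' : c' ⊆ {d | d ∉ F ∧ col d = k})
    (hbi : b.Infinite) (hci : c.Infinite) (hbi' : b'.Infinite) (hci' : c'.Infinite)
    (hd : Disjoint b c) (hd' : Disjoint b' c')
    (hr : ({d | d ∉ F ∧ col d = k} \ (b ∪ c)).Infinite)
    (hr' : ({d | d ∉ F ∧ col d = k} \ (b' ∪ c')).Infinite) :
    ∃ σ ∈ PFix col F, σ '' b = b' ∧ σ '' c = c' := by
  classical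
  set a : Set ℕ := {d | d ∉ F ∧ col d = k} with ha
  let lab : Set ℕ → Set ℕ → ℕ → Option ℕ × ℕ := fun b c d =>
    if d ∈ a then (none, if d ∈ b then 1 else if d ∈ c then 2 else 0) else (some d, 0)
  have lab_a : ∀ b c d, d ∈ a → lab b c d =
      (none, if d ∈ b then 1 else if d ∈ c then 2 else 0) := fun b c d hd => if_pos hd
  have lab_n : ∀ b c d, d ∉ a → lab b c d = (some d, 0) := fun b c d hd => if_neg hd
  have fib1 : ∀ b c : Set ℕ, b ⊆ a → {d | lab b c d = (none, 1)} = b := by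
    intro b c hb
    ext d
    show lab b c d = (none, 1) ↔ d ∈ b
    by_cases hd : d ∈ a
    · rw [lab_a _ _ _ hd]
      by_cases h1 : d ∈ b
      · simp [h1]
      · by_cases h2 : d ∈ c <;> simp [h1, h2]
    · rw [lab_n _ _ _ hd]
      simp only [Prod.mk.injEq, reduceCtorEq, false_and, false_iff]
      exact fun h => hd (hb h)
  have fib2 : ∀ b c : Set ℕ, c ⊆ a → Disjoint b c → {d | lab b c d = (none, 2)} = c := by
    intro b c hc hbc
    ext d
    show lab b c d = (none, 2) ↔ d ∈ c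
    by_cases hd : d ∈ a
    · rw [lab_a _ _ _ hd]
      by_cases h1 : d ∈ b
      · simp [h1, Set.disjoint_left.1 hbc h1]
      · by_cases h2 : d ∈ c <;> simp [h1, h2]
    · rw [lab_n _ _ _ hd]
      simp only [Prod.mk.injEq, reduceCtorEq, false_and, false_iff]
      exact fun h => hd (hc h)
  have fib0 : ∀ b c : Set ℕ, {d | lab b c d = (none, 0)} = a \ (b ∪ c) := by
    intro b c
    ext d
    show lab b c d = (none, 0) ↔ d ∈ a \ (b ∪ c)
    by_cases hd : d ∈ a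
    · rw [lab_a _ _ _ hd]
      by_cases h1 : d ∈ b
      · simp [h1]
      · by_cases h2 : d ∈ c
        · simp [h1, h2]
        · simp [h1, h2, hd]
    · rw [lab_n _ _ _ hd]
      simp [hd]
  have fibe : ∀ (b c : Set ℕ) (m : ℕ), m ≠ 0 → m ≠ 1 → m ≠ 2 →
      {d | lab b c d = (none, m)} = ∅ := by
    intro b c m h0 h1 h2
    ext d
    simp only [Set.mem_ofPred_eq, Set.mem_empty_iff_false, iff_false]
    by_cases hd : d ∈ a
    · rw [lab_a _ _ _ hd]
      intro h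
      have h3 := (Prod.ext_iff.1 h).2
      simp only at h3
      split_ifs at h3 <;> omega
    · rw [lab_n _ _ _ hd]
      simp
  have fibs : ∀ (b c b' c' : Set ℕ) (d m : ℕ), {x | lab b c x = (some d, m)} =
      {x | lab b' c' x = (some d, m)} := by
    intro b c b' c' d m
    ext x
    show lab b c x = (some d, m) ↔ lab b' c' x = (some d, m)
    by_cases hx : x ∈ a
    · rw [lab_a _ _ _ hx, lab_a _ _ _ hx]
      simp
    · rw [lab_n _ _ _ hx, lab_n _ _ _ hx]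
  obtain ⟨σ, hσ⟩ := exists_recolour (lab b c) (lab b' c') (by
    rintro ⟨_ | d, m⟩
    · by_cases h0 : m = 0
      · subst h0
        rw [fib0, fib0]
        exact equiv_of_infinite hr hr'
      · by_cases h1 : m = 1
        · subst h1
          rw [fib1 _ _ hb, fib1 _ _ hb']
          exact equiv_of_infinite hbi hbi'
        · by_cases h2 : m = 2
          · subst h2
            rw [fib2 _ _ hc hd, fib2 _ _ hc' hd']
            exact equiv_of_infinite hci hci'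
          · rw [fibe _ _ _ h0 h1 h2, fibe _ _ _ h0 h1 h2]
            exact ⟨Equiv.refl _⟩
    · rw [fibs b c b' c' d m]
      exact ⟨Equiv.refl _⟩)
  have hσn : ∀ d, d ∉ a → σ d = d := by
    intro d hd
    have h := hσ d
    rw [lab_n _ _ _ hd] at h
    by_cases h1 : σ d ∈ a
    · rw [lab_a _ _ _ h1] at h
      simp at h
    · rw [lab_n _ _ _ h1] at h
      simpa using h
  have hσa : ∀ d, d ∈ a → σ d ∈ a := by
    intro d hd
    by_contra h1
    have h2 := hσn _ h1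
    exact h1 (by rw [σ.injective h2]; exact hd)
  refine ⟨σ, ⟨fun d => ?_, fun d hd => ?_⟩, ?_, ?_⟩
  · by_cases hd : d ∈ a
    · rw [(hσa d hd).2, hd.2]
    · rw [hσn d hd]
  · exact hσn d fun h => h.1 hd
  · ext d
    constructor
    · rintro ⟨e, he, rfl⟩
      have h1 : e ∈ {d | lab b c d = (none, 1)} := by rw [fib1 _ _ hb]; exact he
      have h2 : σ e ∈ {d | lab b' c' d = (none, 1)} := by
        show lab b' c' (σ e) = _
        rw [hσ e]
        exact h1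
      rwa [fib1 _ _ hb'] at h2
    · intro hd
      refine ⟨σ.symm d, ?_, σ.apply_symm_apply d⟩
      have h1 : d ∈ {d | lab b' c' d = (none, 1)} := by rw [fib1 _ _ hb']; exact hd
      have h2 : σ.symm d ∈ {d | lab b c d = (none, 1)} := by
        show lab b c (σ.symm d) = _
        rw [← hσ, σ.apply_symm_apply]
        exact h1
      rwa [fib1 _ _ hb] at h2
  · ext d
    constructor
    · rintro ⟨e, he, rfl⟩
      have h1 : e ∈ {x | lab b c x = (none, 2)} := by rw [fib2 _ _ hc hd]; exact he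
      have h2 : σ e ∈ {d | lab b' c' d = (none, 2)} := by
        show lab b' c' (σ e) = _
        rw [hσ e]
        exact h1
      rwa [fib2 _ _ hc' hd'] at h2
    · intro hdc
      refine ⟨σ.symm d, ?_, σ.apply_symm_apply d⟩
      have h1 : d ∈ {d | lab b' c' d = (none, 2)} := by rw [fib2 _ _ hc' hd']; exact hdc
      have h2 : σ.symm d ∈ {d | lab b c d = (none, 2)} := by
        show lab b c (σ.symm d) = _
        rw [← hσ, σ.apply_symm_apply]
        exact h1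
      rwa [fib2 _ _ hc hd] at h2

/-- homogeneity of `beta` -/
theorem beta_hom (C : HN CS) : ∃ (F : Finset ℕ) (col : ℕ → ℕ), (Set.range col).Finite ∧
    ∀ σ ∈ PFix col (F : Set ℕ), ∀ b c, beta C b c = beta C (σ '' b) (σ '' c) := by
  obtain ⟨F, col, h1, h2⟩ := exists_hom (fun _ => C) 1
  refine ⟨F, col, h1, fun σ hσ b c => ?_⟩
  refine h2 σ hσ fB _ _ fun i _ => ?_
  rcases i with _ | _ | i
  · exact Or.inr ⟨b, rfl, rfl⟩
  · exact Or.inr ⟨c, rfl, rfl⟩
  · exact Or.inl ⟨rfl, 0, one_pos, rfl⟩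

/-- homogeneity of membership -/
theorem memv_hom (z : HN CS) : ∃ (F : Finset ℕ) (col : ℕ → ℕ), (Set.range col).Finite ∧
    ∀ σ ∈ PFix col (F : Set ℕ), ∀ b, memv (blkN b) z.1 = memv (blkN (σ '' b)) z.1 := by
  obtain ⟨F, col, h1, h2⟩ := exists_hom (fun _ => z) 1
  refine ⟨F, col, h1, fun σ hσ b => ?_⟩
  exact h2 σ hσ (.mem 0 1) (cons (blk b) fun _ => z) (cons (blk (σ '' b)) fun _ => z)
    fun i _ => by
      rcases i with _ | i
      · exact Or.inr ⟨b, rfl, rfl⟩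
      · exact Or.inl ⟨rfl, 0, one_pos, rfl⟩

end Pool.Agent.NSC
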