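import Pool.Agent.NSC.Topo

/-!
# Families of traces inside models of ZF
-/

namespace Pool.Agent.NSC

open Pool.Agent.BVM

/-- formula for `Sub` -/
def fSub (x y : ℕ) : Fml := .all (.imp (.mem 0 (x + 1)) (.mem 0 (y + 1)))

/-- formula for the separation property in `Fam` -/
def fFamSep (C D : ℕ) : Fml :=
  .all (.all (.imp (.mem 1 (C + 2)) (.imp (.mem 0 (C + 2)) (.imp (.neg (.eq 1 0)) (.ex (.ex
    (.and (fSub 1 (D + 4)) (.and (fSub 0 (D + 4)) (.and
      (.all (.all (.imp (.mem 1 5) (.imp (.all (.iff (.mem 0 1) (.and (.mem 0 2) (.mem 0 4))))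
        (.mem 0 5)))))
      (.and (.all (.all (.imp (.mem 1 4) (.imp (.all (.iff (.mem 0 1) (.and (.mem 0 2)
        (.mem 0 3)))) (.mem 0 4)))))
      (.all (.imp (.mem 0 (C + 5)) (.neg (.and (.mem 2 0) (.mem 1 0)))))))))))))))

/-- formula for `Fam` -/
def fFam (C D : ℕ) : Fml :=
  .and (.all (.all (.imp (.mem 1 (C + 2)) (.imp (.mem 0 1) (fSub 0 (D + 2))))))
  (.and (.all (.imp (.mem 0 (C + 1)) (.mem (D + 1) 0)))
  (.and (.all (.all (.imp (.mem 1 (C + 2)) (.imp (.mem 0 1) (.all (.ex (.and (.mem 0 2)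
    (.neg (.eq 0 1)))))))))
  (.and (.all (.all (.all (.all (.imp (.mem 3 (C + 4)) (.imp (.mem 2 3) (.imp (fSub 1 (D + 4))
    (.imp (fSub 0 (D + 4)) (.imp (.all (.imp (.mem 0 3) (.or (.mem 0 2) (.mem 0 1))))
      (.or (.mem 1 3) (.mem 0 3)))))))))))
  (fFamSep C D))))

section

variable {M : Type*} {E : M → M → Prop} {v : ℕ → M}

theorem sat_fSub {x y : ℕ} : Sat E (fSub x y) v ↔ Sub E (v x) (v y) := Iff.rfl

theorem sat_fFam {C D : ℕ} : Sat E (fFam C D) v ↔ Fam E (v C) (v D) :=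
  ⟨fun h => ⟨h.1, h.2.1, h.2.2.1, h.2.2.2.1, h.2.2.2.2⟩,
    fun h => ⟨h.1, h.2, h.3, h.4, h.5⟩⟩

/-- differences -/
theorem ZF.exists_diff (h : ZF E) (x y : M) : ∃ z, ∀ t, E t z ↔ (E t x ∧ ¬ E t y) :=
  h.sep (.neg (.mem 0 1)) (fun _ => y) x

/-- intersections -/
theorem ZF.exists_inter (h : ZF E) (x y : M) : ∃ z, ∀ t, E t z ↔ (E t x ∧ E t y) :=
  h.sep (.mem 0 1) (fun _ => y) x

/-- members of members of `C` are infinite -/
theorem Fam.infinite (h : ZF E) {C D c T : M} (hF : Fam E C D) (hc : E c C) (hT : E T c) :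
    {x | E x T}.Infinite := by
  intro hfin
  obtain ⟨n, hn⟩ : ∃ n, {x | E x T}.ncard = n := ⟨_, rfl⟩
  induction n generalizing T with
  | zero =>
    obtain ⟨x, hx, _⟩ := hF.pt c T hc hT T
    have h1 : {x | E x T} = ∅ := (Set.ncard_eq_zero hfin).1 hn
    have h2 : x ∈ {x | E x T} := hx
    rw [h1] at h2
    exact h2
  | succ n ih =>
    obtain ⟨x, hx, _⟩ := hF.pt c T hc hT T
    obtain ⟨s, hs⟩ := h.pair x x
    have hs' : ∀ t, E t s ↔ t = x := fun t => by rw [hs, or_self]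
    obtain ⟨T', hT'⟩ := h.exists_diff T s
    have hTD := hF.sub c T hc hT
    rcases hF.cup c T s T' hc hT (fun t ht => by rw [(hs' t).1 ht]; exact hTD x hx)
      (fun t ht => hTD t ((hT' t).1 ht).1) (fun t ht => by
        by_cases h1 : E t s
        · exact Or.inl h1
        · exact Or.inr ((hT' t).2 ⟨ht, h1⟩)) with h1 | h1
    · obtain ⟨y, hy, hyx⟩ := hF.pt c s hc h1 x
      exact hyx ((hs' y).1 hy)
    · have e : {t | E t T'} = {t | E t T} \ {x} := by
        ext t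
        refine (hT' t).trans (and_congr Iff.rfl (not_congr ?_))
        exact hs' t
      refine ih h1 ?_ ?_
      · rw [e]; exact hfin.sdiff
      · have h2 := Set.ncard_sdiff_singleton_of_mem (s := {t | E t T}) hx
        rw [e, h2, hn]
        rfl

/-- finite covers -/
theorem Fam.cover (h : ZF E) {C D c : M} (hF : Fam E C D) (hc : E c C) (s : Set M)
    (hs : s.Finite) : ∀ T, E T c → (∀ a ∈ s, Sub E a D) → (∀ x, E x T → ∃ a ∈ s, E x a) →
    ∃ a ∈ s, E a c := by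
  induction s, hs using Set.Finite.induction_on with
  | empty =>
    intro T hT _ hcov
    obtain ⟨x, hx, _⟩ := hF.pt c T hc hT T
    obtain ⟨a, ha, _⟩ := hcov x hx
    exact ha.elim
  | @insert a s _ _ ih =>
    intro T hT hsub hcov
    obtain ⟨T', hT'⟩ := h.exists_diff T a
    have hTD := hF.sub c T hc hT
    rcases hF.cup c T a T' hc hT (hsub a (Set.mem_insert _ _))
      (fun t ht => hTD t ((hT' t).1 ht).1) (fun t ht => by
        by_cases h1 : E t a
        · exact Or.inl h1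
        · exact Or.inr ((hT' t).2 ⟨ht, h1⟩)) with h1 | h1
    · exact ⟨a, Set.mem_insert _ _, h1⟩
    · obtain ⟨b, hb, hbc⟩ := ih T' h1 (fun b hb => hsub b (Set.mem_insert_of_mem _ hb))
        (fun x hx => by
          obtain ⟨hxT, hxa⟩ := (hT' x).1 hx
          obtain ⟨b, hb, hxb⟩ := hcov x hxT
          rcases Set.mem_insert_iff.1 hb with rfl | hb
          · exact absurd hxb hxa
          · exact ⟨b, hb, hxb⟩)
      exact ⟨b, Set.mem_insert_of_mem _ hb, hbc⟩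

/-- monotonicity -/
theorem Fam.mono {C D c T T' : M} (hF : Fam E C D) (hc : E c C) (hT : E T c)
    (hTT : Sub E T T') (hT' : Sub E T' D) : E T' c := by
  rcases hF.cup c T T' T' hc hT hT' hT' (fun x hx => Or.inl (hTT x hx)) with h | h <;> exact h

/-- separation of two members of `C` which contain `A` -/
theorem Fam.split (h : ZF E) {C D A c c' : M} (hF : Fam E C D) (hc : E c C) (hc' : E c' C)
    (hne : c ≠ c') (hA : E A c) (hA' : E A c') :
    ∃ T1 T2, Sub E T1 A ∧ Sub E T2 A ∧ (∀ x, ¬ (E x T1 ∧ E x T2)) ∧ E T1 c ∧ E T2 c' ∧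
      ∀ c'', E c'' C → ¬ (E T1 c'' ∧ E T2 c'') := by
  obtain ⟨T, T', hT, hT', h1, h2, h3⟩ := hF.sep c c' hc hc' hne
  obtain ⟨S, hS⟩ := h.exists_inter A T
  obtain ⟨T2, hT2⟩ := h.exists_inter A T'
  have hSc := h1 A S hA hS
  have hT2c := h2 A T2 hA' hT2
  have hSD := hF.sub c S hc hSc
  have hT2D := hF.sub c' T2 hc' hT2c
  have no : ∀ c'', E c'' C → ¬ (E S c'' ∧ E T2 c'') := by
    rintro c'' hc'' ⟨h4, h5⟩
    exact h3 c'' hc'' ⟨hF.mono hc'' h4 (fun x hx => ((hS x).1 hx).2) hT,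
      hF.mono hc'' h5 (fun x hx => ((hT2 x).1 hx).2) hT'⟩
  obtain ⟨T1, hT1⟩ := h.exists_diff S T2
  obtain ⟨R, hR⟩ := h.exists_inter S T2
  have hT1S : Sub E T1 S := fun x hx => ((hT1 x).1 hx).1
  have hT1c : E T1 c := by
    rcases hF.cup c S T1 R hc hSc (fun x hx => hSD x (hT1S x hx))
      (fun x hx => hSD x ((hR x).1 hx).1) (fun x hx => by
        by_cases h4 : E x T2
        · exact Or.inr ((hR x).2 ⟨hx, h4⟩)
        · exact Or.inl ((hT1 x).2 ⟨hx, h4⟩)) with h4 | h4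
    · exact h4
    · exact absurd ⟨hSc, hF.mono hc h4 (fun x hx => ((hR x).1 hx).2) hT2D⟩ (no c hc)
  refine ⟨T1, T2, fun x hx => ((hS x).1 (hT1S x hx)).1, fun x hx => ((hT2 x).1 hx).1,
    fun x hx => ((hT1 x).1 hx.1).2 hx.2, hT1c, hT2c, ?_⟩
  rintro c'' hc'' ⟨h4, h5⟩
  exact no c'' hc'' ⟨hF.mono hc'' h4 hT1S hSD, h5⟩

end

end Pool.Agent.NSC
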