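import Pool.Agent.NSC.Noinf
import Pool.Agent.Sym.NAS4

/-!
# The generic quotients have no amorphous sets and violate `INSHC`
-/

namespace Pool.Agent.NSC

open Pool.Agent.BVM Pool.Agent.Sym Pool.Agent.Forcing Pool.Agent.LadderTree Pool.Agent.GenMod

/-- there are no amorphous sets in the generic quotients -/
theorem nas_gen (Γ : HGen CS) : NAS Γ.Γ.E := by
  intro x hx
  obtain ⟨i, rfl⟩ := Gen.exists_rep x
  have h1 : Sat Γ.Γ.E (fAmor 0) fun _ => Γ.Γ.cl i := sat_fAmor.2 hx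
  rw [Gen.los, hstr_val, nas_val] at h1
  exact Γ.Γ.F.bot h1

/-- there is a model of ZF in which there are no amorphous sets and `INSHC` fails -/
theorem exists_model : ∃ (M : Type) (E : M → M → Prop), ZF E ∧ NAS E ∧ ¬ INSHC E := by
  have htop : (⊤ : RO Cond) ≠ ⊥ := by
    intro h
    have h1 : Forc Cond.one (⊤ : RO Cond) := forc_top
    rw [h] at h1
    exact forc_bot h1
  obtain ⟨Γ, _, _, hR⟩ := exists_rich ∅ Set.countable_empty ⊤ htop
  exact ⟨Γ.Γ.N, Γ.Γ.E, gen_zf Γ.Γ, nas_gen Γ, not_inshc hR⟩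

end Pool.Agent.NSC
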