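import Pool.Agent.NSC.Core

/-!
# Families of traces over the ground model set of all `X_d` are finite
-/

namespace Pool.Agent.NSC

open Pool.Agent.BVM Pool.Agent.Sym Pool.Agent.Forcing Pool.Agent.LadderTree Pool.Agent.GenMod

/-- splitting an infinite set into three infinite sets -/
theorem exists_split3 {s : Set ℕ} (hs : s.Infinite) : ∃ s1 s2 s3 : Set ℕ, s1 ⊆ s ∧ s2 ⊆ s ∧
    s3 ⊆ s ∧ s1.Infinite ∧ s2.Infinite ∧ s3.Infinite ∧ Disjoint s1 s2 ∧ Disjoint s1 s3 ∧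
    Disjoint s2 s3 ∧ ∀ d ∈ s, d ∈ s1 ∨ d ∈ s2 ∨ d ∈ s3 := by
  have inf : ∀ {t t' : Set ℕ}, t.Infinite → Nonempty (t ≃ t') → t'.Infinite := by
    rintro t t' ht ⟨e⟩
    have : Infinite t := ht.to_subtype
    exact Set.infinite_coe_iff.1 (Infinite.of_injective e e.injective)
  obtain ⟨s1, h1, e1, h1'⟩ := exists_copy (s := s) hs
  obtain ⟨s2, h2, e2, h2'⟩ := exists_copy (s := s \ s1) h1'
  refine ⟨s1, s2, (s \ s1) \ s2, h1, fun d hd => (h2 hd).1, fun d hd => hd.1.1, inf hs e1,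
    inf h1' e2, h2', ?_, ?_, ?_, ?_⟩
  · exact Set.disjoint_left.2 fun d hd hd' => (h2 hd').2 hd
  · exact Set.disjoint_left.2 fun d hd hd' => hd'.1.2 hd
  · exact Set.disjoint_left.2 fun d hd hd' => hd'.2 hd
  · intro d hd
    by_cases h3 : d ∈ s1
    · exact Or.inl h3
    · by_cases h4 : d ∈ s2
      · exact Or.inr (Or.inl h4)
      · exact Or.inr (Or.inr ⟨⟨hd, h3⟩, h4⟩)

/-- monotonicity of `beta` -/
theorem beta_mono (C : HN CS) {b b0 c : Set ℕ} (h : b0 ⊆ b) :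
    famv C ⊓ beta C b c ≤ beta C b0 c := by
  refine le_of_rich {C, blk b, blk b0, blk c} ((Set.toFinite _).countable) _ _
    fun Γ hR hU hp => ?_
  rw [Γ.Γ.F.inf_iff] at hU
  have pC : IsPar Γ C := hp _ (by simp)
  have pb : IsPar Γ (blk b) := hp _ (by simp)
  have pb0 : IsPar Γ (blk b0) := hp _ (by simp)
  have pc : IsPar Γ (blk c) := hp _ (by simp)
  have hF := (famv_iff hR pC.rep).1 hU.1
  have hB := (beta_iff pC.rep pb.isB pc.isB).1 hU.2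
  rw [beta_iff pC.rep pb0.isB pc.isB]
  rintro c'' hc'' ⟨h1, h2⟩
  exact hB c'' hc'' ⟨hF.mono hc'' h1 ((hR.sub_iff pb0.isB pb.isB).2 h)
    ((hR.sub_iff pb.isB hR.hD.isB).2 (Set.subset_univ _)), h2⟩

/-- one of finitely many pieces belongs to a trace -/
theorem exists_piece {Γ : HGen CS} (hR : Rich Γ) {C c : Γ.Γ.N}
    (hF : Fam Γ.Γ.E C (par Γ (blk Set.univ))) (hc : Γ.Γ.E c C) (a : Set ℕ)
    (pa : IsPar Γ (blk a)) (ha : Γ.Γ.E (par Γ (blk a)) c) (F : Finset ℕ)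
    (pF : IsPar Γ (blk (F : Set ℕ))) (col : ℕ → ℕ) (hcol : (Set.range col).Finite)
    (w : ℕ → Set ℕ) (pw : ∀ k, IsPar Γ (blk (w k))) (hw : ∀ d ∈ a, d ∉ F → d ∈ w (col d)) :
    ∃ k ∈ Set.range col, Γ.Γ.E (par Γ (blk (w k))) c := by
  obtain ⟨x, hx, hxc⟩ := hF.cover Γ.om.zf hc
    (insert (par Γ (blk (F : Set ℕ))) ((fun k => par Γ (blk (w k))) '' Set.range col))
    ((hcol.image _).insert _) (par Γ (blk a)) ha (by
      intro x hx
      rcases Set.mem_insert_iff.1 hx with rfl | ⟨k, _, rfl⟩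
      · exact (hR.sub_iff pF.isB hR.hD.isB).2 (Set.subset_univ _)
      · exact (hR.sub_iff (pw k).isB hR.hD.isB).2 (Set.subset_univ _)) (by
      intro x hx
      obtain ⟨d, hd, hxd⟩ := (mem_par_blk pa).1 hx
      by_cases hdF : d ∈ (F : Set ℕ)
      · exact ⟨_, Set.mem_insert _ _, (mem_par_blk pF).2 ⟨d, hdF, hxd⟩⟩
      · exact ⟨_, Set.mem_insert_of_mem _ ⟨col d, ⟨d, rfl⟩, rfl⟩,
          (mem_par_blk (pw _)).2 ⟨d, hw d hd hdF, hxd⟩⟩)
  rcases Set.mem_insert_iff.1 hx with rfl | ⟨k, hk, rfl⟩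
  · exact absurd F.finite_toSet ((hR.infinite_iff pF.isB).1 (hF.infinite Γ.om.zf hc hxc))
  · exact ⟨k, hk, hxc⟩

theorem phase2 (C z : HN CS) (F0 : Finset ℕ) (col : ℕ → ℕ)
    (hom : ∀ σ ∈ PFix col (F0 : Set ℕ), ∀ b c, beta C b c = beta C (σ '' b) (σ '' c))
    (k : ℕ) (b c : Set ℕ) (hb : b ⊆ {d | d ∉ (F0 : Set ℕ) ∧ col d = k})
    (hc : c ⊆ {d | d ∉ (F0 : Set ℕ) ∧ col d = k}) (hbi : b.Infinite) (hci : c.Infinite)
    (hbc : Disjoint b c) :
    famv C ⊓ beta C b c ⊓ memv z.1 C.1 ⊓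
      memv (blkN {d | d ∉ (F0 : Set ℕ) ∧ col d = k}) z.1 = ⊥ := by
  classical
  set a : Set ℕ := {d | d ∉ (F0 : Set ℕ) ∧ col d = k} with ha
  by_contra hV
  obtain ⟨b0, hb0, ⟨e0⟩, hb0'⟩ := exists_copy (s := b) hbi
  have hb0i : b0.Infinite := by
    have : Infinite b := hbi.to_subtype
    exact Set.infinite_coe_iff.1 (Infinite.of_injective e0 e0.injective)
  obtain ⟨F1, col1, fin1, hom1⟩ := memv_hom z
  let w : ℕ → Set ℕ := fun j => a ∩ {d | d ∉ (F1 : Set ℕ) ∧ col1 d = j}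
  have hw : ∀ j, ∃ s1 s2 s3 : Set ℕ, (w j).Infinite → s1 ⊆ w j ∧ s2 ⊆ w j ∧
      s3 ⊆ w j ∧ s1.Infinite ∧ s2.Infinite ∧ s3.Infinite ∧ Disjoint s1 s2 ∧ Disjoint s1 s3 ∧
      Disjoint s2 s3 ∧ ∀ d ∈ w j, d ∈ s1 ∨ d ∈ s2 ∨ d ∈ s3 := by
    intro j
    by_cases h : (w j).Infinite
    · obtain ⟨s1, s2, s3, h1⟩ := exists_split3 h
      exact ⟨s1, s2, s3, fun _ => h1⟩
    · exact ⟨∅, ∅, ∅, fun h' => absurd h' h⟩
  choose s1 s2 s3 hs using hw
  obtain ⟨Γ, hU, hp, hR⟩ := exists_rich ({C, z, blk a, blk (F1 : Set ℕ)} ∪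
    (Set.range (fun j => blk (w j)) ∪ (Set.range (fun j => blk (s1 j)) ∪
      (Set.range (fun j => blk (s2 j)) ∪ Set.range (fun j => blk (s3 j))))))
    ((Set.toFinite _).countable.union ((Set.countable_range _).union
      ((Set.countable_range _).union ((Set.countable_range _).union
        (Set.countable_range _))))) _ hV
  have pC : IsPar Γ C := hp _ (Or.inl (by simp))
  have pz : IsPar Γ z := hp _ (Or.inl (by simp))
  have pa : IsPar Γ (blk a) := hp _ (Or.inl (by simp))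
  have pF : IsPar Γ (blk (F1 : Set ℕ)) := hp _ (Or.inl (by simp))
  have pw : ∀ j, IsPar Γ (blk (w j)) := fun j => hp _ (Or.inr (Or.inl ⟨j, rfl⟩))
  have p1 : ∀ j, IsPar Γ (blk (s1 j)) := fun j => hp _ (Or.inr (Or.inr (Or.inl ⟨j, rfl⟩)))
  have p2 : ∀ j, IsPar Γ (blk (s2 j)) := fun j =>
    hp _ (Or.inr (Or.inr (Or.inr (Or.inl ⟨j, rfl⟩))))
  have p3 : ∀ j, IsPar Γ (blk (s3 j)) := fun j =>
    hp _ (Or.inr (Or.inr (Or.inr (Or.inr ⟨j, rfl⟩))))
  rw [Γ.Γ.F.inf_iff, Γ.Γ.F.inf_iff] at hU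
  obtain ⟨⟨hfb, hzC⟩, haz⟩ := hU
  have hbeta := Γ.Γ.F.mono (beta_mono C hb0) hfb
  have hF := (famv_iff hR pC.rep).1 (Γ.Γ.F.inf_iff.1 hfb).1
  have hzC' : Γ.Γ.E (par Γ z) (par Γ C) := (memv_iff pz.rep pC.rep).1 hzC
  have haz' : Γ.Γ.E (par Γ (blk a)) (par Γ z) := (memv_iff pa.rep pz.rep).1 haz
  -- a piece
  obtain ⟨j, _, hj⟩ := exists_piece hR hF hzC' a pa haz' F1 pF col1 fin1 w pw
    (fun d hd hdF => ⟨hd, hdF, rfl⟩)
  have hwi : (w j).Infinite := (hR.infinite_iff (pw j).isB).1 (hF.infinite Γ.om.zf hzC' hj)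
  obtain ⟨g1, g2, g3, i1, i2, i3, d12, d13, d23, hcov⟩ := hs j hwi
  have subD : ∀ {t : Set ℕ} (pt : IsPar Γ (blk t)),
      Sub Γ.Γ.E (par Γ (blk t)) (par Γ (blk Set.univ)) := fun pt =>
    (hR.sub_iff pt.isB hR.hD.isB).2 (Set.subset_univ _)
  obtain ⟨x, hx, hxz⟩ := hF.cover Γ.om.zf hzC'
    {par Γ (blk (s1 j)), par Γ (blk (s2 j)), par Γ (blk (s3 j))} (Set.toFinite _)
    (par Γ (blk (w j))) hj (by
      intro x hx
      simp only [Set.mem_insert_iff, Set.mem_singleton_iff] at hx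
      rcases hx with rfl | rfl | rfl
      · exact subD (p1 j)
      · exact subD (p2 j)
      · exact subD (p3 j)) (by
      intro x hx
      obtain ⟨d, hd, hxd⟩ := (mem_par_blk (pw j)).1 hx
      rcases hcov d hd with h | h | h
      · exact ⟨_, by simp, (mem_par_blk (p1 j)).2 ⟨d, h, hxd⟩⟩
      · exact ⟨par Γ (blk (s2 j)), by simp, (mem_par_blk (p2 j)).2 ⟨d, h, hxd⟩⟩
      · exact ⟨par Γ (blk (s3 j)), by simp, (mem_par_blk (p3 j)).2 ⟨d, h, hxd⟩⟩)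
  -- all pieces have the same value
  have cls : ∀ {t : Set ℕ}, t ⊆ w j → t ⊆ {d | d ∉ (F1 : Set ℕ) ∧ col1 d = j} :=
    fun h d hd => (h hd).2
  have same : ∀ {t t' u : Set ℕ}, t ⊆ w j → t' ⊆ w j → u ⊆ w j → t.Infinite → t'.Infinite →
      u.Infinite → Disjoint t t' → Disjoint t u → Disjoint t' u →
      memv (blkN t) z.1 = memv (blkN t') z.1 := by
    intro t t' u ht ht' hu hti hti' hui h1 h2 h3
    obtain ⟨σ, hσ, e1, _⟩ := exists_move2 col1 (F1 : Set ℕ) j (b := t) (c := u) (b' := t')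
      (c' := u) (cls ht) (cls hu) (cls ht') (cls hu) hti hui hti' hui h2 h3 (by
        refine hti'.mono fun d hd => ⟨cls ht' hd, ?_⟩
        rintro (h4 | h4)
        · exact Set.disjoint_left.1 h1 h4 hd
        · exact Set.disjoint_left.1 h3 hd h4) (by
        refine hti.mono fun d hd => ⟨cls ht hd, ?_⟩
        rintro (h4 | h4)
        · exact Set.disjoint_left.1 h1 hd h4
        · exact Set.disjoint_left.1 h2 hd h4)
    rw [hom1 σ hσ t, e1]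
  have e12 := same g1 g2 g3 i1 i2 i3 d12 d13 d23
  have e13 := same g1 g3 g2 i1 i3 i2 d13 d12 d23.symm
  have hall : Γ.Γ.F.U (memv (blkN (s1 j)) z.1) := by
    simp only [Set.mem_insert_iff, Set.mem_singleton_iff] at hx
    rcases hx with rfl | rfl | rfl
    · exact (memv_iff (p1 j).rep pz.rep).2 hxz
    · rw [e12]; exact (memv_iff (p2 j).rep pz.rep).2 hxz
    · rw [e13]; exact (memv_iff (p3 j).rep pz.rep).2 hxz
  have h1 : Γ.Γ.E (par Γ (blk (s1 j))) (par Γ z) := (memv_iff (p1 j).rep pz.rep).1 hall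
  have h2 : Γ.Γ.E (par Γ (blk (s2 j))) (par Γ z) := by
    rw [e12] at hall
    exact (memv_iff (p2 j).rep pz.rep).1 hall
  -- homogeneity of `beta`
  have cls' : ∀ {t : Set ℕ}, t ⊆ w j → t ⊆ {d | d ∉ (F0 : Set ℕ) ∧ col d = k} :=
    fun h d hd => (h hd).1
  obtain ⟨σ, hσ, e1, e2⟩ := exists_move2 col (F0 : Set ℕ) k (b := b0) (c := c) (b' := s1 j)
    (c' := s2 j) (hb0.trans hb) hc (cls' g1) (cls' g2) hb0i hci i1 i2
    (hbc.mono_left hb0) d12 (by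
      refine hb0'.mono fun d hd => ⟨hb hd.1, ?_⟩
      rintro (h4 | h4)
      · exact hd.2 h4
      · exact Set.disjoint_left.1 hbc hd.1 h4) (by
      refine i3.mono fun d hd => ⟨cls' g3 hd, ?_⟩
      rintro (h4 | h4)
      · exact Set.disjoint_left.1 d13 h4 hd
      · exact Set.disjoint_left.1 d23 h4 hd)
  rw [hom σ hσ b0 c, e1, e2, beta_iff pC.rep (p1 j).isB (p2 j).isB] at hbeta
  exact hbeta _ hzC' ⟨h1, h2⟩

/-- families of traces are finite -/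
theorem no_fam (C : HN CS) : ∃ n : ℕ, ∀ (z : ℕ → HN CS) (F : UF (RO Cond)), F.U (famv C) →
    (∀ i, i ≤ n → F.U (memv (z i).1 C.1)) →
    (∀ i, i ≤ n → ∀ j, j ≤ n → i ≠ j → ¬ F.U (eqv (z i).1 (z j).1)) → False := by
  classical
  obtain ⟨F0, col, fin, hom⟩ := beta_hom C
  have : Finite (Set.range col) := fin
  have : Fintype (Set.range col) := Fintype.ofFinite _
  refine ⟨Fintype.card (Set.range col), fun z F hf hz hne => ?_⟩
  set n := Fintype.card (Set.range col) with hn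
  set V0 : RO Cond := famv C ⊓ ((Finset.range (n + 1)).inf fun i => memv (z i).1 C.1) ⊓
    ((Finset.range (n + 1) ×ˢ Finset.range (n + 1)).inf fun p =>
      if p.1 = p.2 then ⊤ else (eqv (z p.1).1 (z p.2).1)ᶜ) with hV0
  have hV : V0 ≠ ⊥ := by
    intro h
    apply F.bot
    rw [← h, hV0, F.inf_iff, F.inf_iff, uf_finset_inf, uf_finset_inf]
    refine ⟨⟨hf, fun i hi => hz i (by simpa [Nat.lt_succ_iff] using hi)⟩, fun p hp => ?_⟩
    rw [Finset.mem_product, Finset.mem_range, Finset.mem_range] at hp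
    split_ifs with h1
    · exact F.top
    · rw [F.compl_iff]
      exact hne _ (by omega) _ (by omega) h1
  obtain ⟨Γ, hU, hp, hR⟩ := exists_rich ({C, blk (F0 : Set ℕ)} ∪
    (Set.range z ∪ Set.range (fun k => blk {d | d ∉ (F0 : Set ℕ) ∧ col d = k})))
    ((Set.toFinite _).countable.union ((Set.countable_range _).union
      (Set.countable_range _))) _ hV
  have pC : IsPar Γ C := hp _ (Or.inl (by simp))
  have pF : IsPar Γ (blk (F0 : Set ℕ)) := hp _ (Or.inl (by simp))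
  have pz : ∀ i, IsPar Γ (z i) := fun i => hp _ (Or.inr (Or.inl ⟨i, rfl⟩))
  have pa : ∀ k, IsPar Γ (blk {d | d ∉ (F0 : Set ℕ) ∧ col d = k}) :=
    fun k => hp _ (Or.inr (Or.inr ⟨k, rfl⟩))
  rw [hV0, Γ.Γ.F.inf_iff, Γ.Γ.F.inf_iff, uf_finset_inf, uf_finset_inf] at hU
  obtain ⟨⟨hf', hz'⟩, hne'⟩ := hU
  have hF := (famv_iff hR pC.rep).1 hf'
  have hzC : ∀ i : _root_.Fin (n + 1), Γ.Γ.E (par Γ (z i)) (par Γ C) := fun i =>
    (memv_iff (pz i).rep pC.rep).1 (hz' i (Finset.mem_range.2 i.2))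
  have key : ∀ i : _root_.Fin (n + 1), ∃ k : Set.range col,
      Γ.Γ.E (par Γ (blk {d | d ∉ (F0 : Set ℕ) ∧ col d = k.1})) (par Γ (z i)) := by
    intro i
    obtain ⟨k, hk, h⟩ := exists_piece hR hF (hzC i) Set.univ hR.hD (hF.top _ (hzC i)) F0 pF
      col fin (fun k => {d | d ∉ (F0 : Set ℕ) ∧ col d = k}) pa (fun d _ hd => ⟨hd, rfl⟩)
    exact ⟨⟨k, hk⟩, h⟩
  choose κ hκ using key
  obtain ⟨i, j, hij, hκij⟩ := Fintype.exists_ne_map_eq_of_card_lt κ (by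
    rw [Fintype.card_fin]
    omega)
  have hκj := hκ j
  rw [← hκij] at hκj
  have hne2 : par Γ (z i) ≠ par Γ (z j) := by
    intro h
    have h1 := hne' (i.1, j.1) (Finset.mem_product.2
      ⟨Finset.mem_range.2 i.2, Finset.mem_range.2 j.2⟩)
    rw [if_neg (fun h => hij (_root_.Fin.ext h)), Γ.Γ.F.compl_iff] at h1
    exact h1 ((eqv_iff (pz i).rep (pz j).rep).2 h)
  obtain ⟨T1, T2, t1, t2, hdis, m1, m2, hbeta⟩ :=
    hF.split Γ.om.zf (hzC i) (hzC j) hne2 (hκ i) hκj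
  have subD : Sub Γ.Γ.E (par Γ (blk {d | d ∉ (F0 : Set ℕ) ∧ col d = (κ i).1}))
      (par Γ (blk Set.univ)) := (hR.sub_iff (pa _).isB hR.hD.isB).2 (Set.subset_univ _)
  obtain ⟨b, hb⟩ := hR.exists_isB (T := T1) fun x hx => subD x (t1 x hx)
  obtain ⟨c, hc⟩ := hR.exists_isB (T := T2) fun x hx => subD x (t2 x hx)
  have hba := (hR.sub_iff hb (pa _).isB).1 t1
  have hca := (hR.sub_iff hc (pa _).isB).1 t2
  have hbi := (hR.infinite_iff hb).1 (hF.infinite Γ.om.zf (hzC i) m1)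
  have hci := (hR.infinite_iff hc).1 (hF.infinite Γ.om.zf (hzC j) m2)
  have hbc := hR.disj hb hc hdis
  have h0 := phase2 C (z i) F0 col hom (κ i).1 b c hba hca hbi hci hbc
  apply Γ.Γ.F.bot
  rw [← h0, Γ.Γ.F.inf_iff, Γ.Γ.F.inf_iff, Γ.Γ.F.inf_iff]
  exact ⟨⟨⟨hf', (beta_iff pC.rep hb hc).2 hbeta⟩, hz' i (Finset.mem_range.2 i.2)⟩,
    (memv_iff (pa _).rep (pz i).rep).2 (hκ i)⟩

/-- the set of all `X_d` has no non-scattered Hausdorff compactification -/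
theorem not_inshc {Γ : HGen CS} (hR : Rich Γ) : ¬ INSHC Γ.Γ.E := by
  intro h
  have hfin : ¬ NSC.Fin Γ.Γ.E (par Γ (blk Set.univ)) := by
    rw [Γ.om.fin_iff]
    exact (hR.infinite_iff hR.hD.isB).2 Set.infinite_univ
  obtain ⟨K, t, hK, hS⟩ := h _ hfin
  obtain ⟨C, hF, hinf⟩ := Γ.om.exists_fam hK hS
  obtain ⟨i, rfl⟩ := Gen.exists_rep C
  have rep : ∀ j, Rep Γ (Γ.Γ.cl j) (Γ.Γ.xs j) := fun j => by
    refine ⟨j, rfl, ?_⟩
    rw [eqv_refl]
    exact Γ.Γ.F.top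
  obtain ⟨n, hn⟩ := no_fam (Γ.Γ.xs i)
  let f := hinf.natEmbedding
  choose g hg using fun k => Gen.exists_rep (f k).1
  refine hn (fun k => Γ.Γ.xs (g k)) Γ.Γ.F ((famv_iff hR (rep i)).2 hF) (fun k _ => ?_)
    fun k _ l _ hkl he => hkl ?_
  · rw [memv_iff (rep _) (rep _), hg]
    exact (f k).2
  · rw [eqv_iff (rep _) (rep _), hg, hg] at he
    exact f.injective (Subtype.ext he)

end Pool.Agent.NSC
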