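import Pool.Agent.BVM.Notions

/-!
# ZF, finiteness, amorphous sets and Hausdorff compactifications inside a structure `(M, E)`

`E x y` is read `x ∈ y`.  All notions are relativized to the structure: quantifiers range over
`M`.
-/

namespace Pool.Agent.NSC

open Pool.Agent.BVM

section

variable {M : Type*} (E : M → M → Prop)

/-- `(M, E)` is a model of ZF -/
structure ZF : Prop where
  /-- extensionality -/
  ext : ∀ x y, (∀ z, E z x ↔ E z y) → x = y
  /-- foundation -/
  found : ∀ x, (∃ y, E y x) → ∃ y, E y x ∧ ∀ z, E z y → ¬ E z x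
  /-- pairing -/
  pair : ∀ x y, ∃ z, ∀ t, E t z ↔ (t = x ∨ t = y)
  /-- union -/
  union : ∀ x, ∃ u, ∀ t, E t u ↔ ∃ y, E y x ∧ E t y
  /-- power set -/
  power : ∀ x, ∃ p, ∀ t, E t p ↔ ∀ z, E z t → E z x
  /-- infinity -/
  infinity : ∃ x, (∃ e, E e x ∧ ∀ z, ¬ E z e) ∧ ∀ y, E y x → ∃ s, E s x ∧ ∀ z, E z s ↔
    (E z y ∨ z = y)
  /-- separation, for formulas with parameters -/
  sep : ∀ (φ : Fml) (v : ℕ → M) (x : M), ∃ y, ∀ z, E z y ↔ (E z x ∧ Sat E φ (cons z v))
  /-- replacement, for formulas with parameters -/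
  repl : ∀ (φ : Fml) (v : ℕ → M) (x : M),
    (∀ a, E a x → ∃! b, Sat E φ (cons b (cons a v))) →
    ∃ y, ∀ b, E b y ↔ ∃ a, E a x ∧ Sat E φ (cons b (cons a v))

/-- `x ⊆ y` -/
def Sub (x y : M) : Prop := ∀ z, E z x → E z y

/-- `z = x \ y` -/
def Diff (z x y : M) : Prop := ∀ t, E t z ↔ (E t x ∧ ¬ E t y)

/-- `I` is an inductive set: `∅ ∈ I`, and `y ∪ {y} ∈ I` for all `y ∈ I` -/
def Ind (I : M) : Prop :=
  (∃ e, E e I ∧ ∀ z, ¬ E z e) ∧ ∀ y, E y I → ∃ s, E s I ∧ ∀ z, E z s ↔ (E z y ∨ z = y)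

/-- `n` is a natural number (it belongs to every inductive set) -/
def IsNat (n : M) : Prop := ∀ I, Ind E I → E n I

/-- `f` is a bijection from `a` to `b` -/
def Bij (f a b : M) : Prop :=
  (∀ z, E z f → ∃ x y, E x a ∧ E y b ∧ OPair E z x y) ∧
    (∀ x, E x a → ∃ y, Rel E f x y ∧ ∀ y', Rel E f x y' → y' = y) ∧
      ∀ y, E y b → ∃ x, Rel E f x y ∧ ∀ x', Rel E f x' y → x' = x

/-- `x` is finite: there is a bijection from some natural number to `x` -/
def Fin (x : M) : Prop := ∃ n f, IsNat E n ∧ Bij E f n x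

/-- `x` is amorphous: it is infinite, and every infinite subset of `x` has finite complement
in `x` -/
def Amorphous (x : M) : Prop :=
  ¬ Fin E x ∧ ∀ y, Sub E y x → ¬ Fin E y → ∀ z, Diff E z x y → Fin E z

/-- there are no amorphous sets -/
def NAS : Prop := ∀ x, ¬ Amorphous E x

/-- `t` is a topology on `K` (its members are the open sets) -/
structure IsTop (K t : M) : Prop where
  /-- open sets are subsets of `K` -/
  sub : ∀ U, E U t → Sub E U K
  /-- `K` is open -/
  univ : E K t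
  /-- unions of families of open sets are open -/
  sUnion : ∀ 𝒰, Sub E 𝒰 t → ∃ V, E V t ∧ ∀ x, E x V ↔ ∃ U, E U 𝒰 ∧ E x U
  /-- intersections of two open sets are open -/
  inter : ∀ U V, E U t → E V t → ∃ W, E W t ∧ ∀ x, E x W ↔ (E x U ∧ E x V)

/-- the space `(K, t)` is Hausdorff -/
def IsHaus (K t : M) : Prop :=
  ∀ x y, E x K → E y K → x ≠ y → ∃ U V, E U t ∧ E V t ∧ E x U ∧ E y V ∧ ∀ z, ¬ (E z U ∧ E z V)

/-- the space `(K, t)` is compact: every cover by open sets has a finite subcover -/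
def IsComp (K t : M) : Prop :=
  ∀ 𝒰, Sub E 𝒰 t → (∀ x, E x K → ∃ U, E U 𝒰 ∧ E x U) →
    ∃ 𝒱, Sub E 𝒱 𝒰 ∧ Fin E 𝒱 ∧ ∀ x, E x K → ∃ U, E U 𝒱 ∧ E x U

/-- the space `(K, t)` is scattered: every nonempty `A ⊆ K` has a point which is isolated
in `A` -/
def IsScat (K t : M) : Prop :=
  ∀ A, Sub E A K → (∃ x, E x A) → ∃ x U, E x A ∧ E U t ∧ ∀ y, (E y A ∧ E y U) ↔ y = x

/-- `A` is a dense subspace of `(K, t)` which is homeomorphic to the discrete space on `D`:
every subset of `A` is open in the subspace `A`, and there is a bijection from `D` to `A` -/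
structure DenseDisc (D K t A : M) : Prop where
  /-- `A ⊆ K` -/
  sub : Sub E A K
  /-- `A` is a discrete subspace -/
  disc : ∀ B, Sub E B A → ∃ U, E U t ∧ ∀ x, (E x U ∧ E x A) ↔ E x B
  /-- `A` is dense -/
  dense : ∀ U, E U t → (∃ x, E x U) → ∃ x, E x U ∧ E x A
  /-- there is a bijection from `D` to `A` -/
  bij : ∃ e, Bij E e D A

/-- `(K, t)` is a Hausdorff compactification of the discrete space on `D` -/
structure HComp (D K t : M) : Prop where
  /-- `t` is a topology -/
  top : IsTop E K t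
  /-- the space is Hausdorff -/
  haus : IsHaus E K t
  /-- the space is compact -/
  comp : IsComp E K t
  /-- it has a dense subspace homeomorphic to the discrete space on `D` -/
  dd : ∃ A, DenseDisc E D K t A

/-- every infinite discrete space has a non-scattered Hausdorff compactification -/
def INSHC : Prop := ∀ D, ¬ Fin E D → ∃ K t, HComp E D K t ∧ ¬ IsScat E K t

end

end Pool.Agent.NSC
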