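import Pool.Agent.GenMod.HNStr
import Pool.Agent.NSC.Blk
import Pool.Agent.NSC.FamSem

/-!
# Parameters in generic quotients
-/

namespace Pool.Agent.NSC

open Pool.Agent.BVM Pool.Agent.Sym Pool.Agent.Forcing Pool.Agent.LadderTree Pool.Agent.GenMod

/-- the name is a parameter of the generic quotient -/
def IsPar (Γ : HGen CS) (x : HN CS) : Prop := ∃ i, Γ.Γ.xs i = x

open Classical in
/-- the element of the generic quotient given by a parameter -/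
noncomputable def par (Γ : HGen CS) (x : HN CS) : Γ.Γ.N :=
  Γ.Γ.cl (if h : IsPar Γ x then h.choose else 0)

theorem IsPar.exists_cl {Γ : HGen CS} {x : HN CS} (h : IsPar Γ x) :
    ∃ i, par Γ x = Γ.Γ.cl i ∧ Γ.Γ.xs i = x :=
  ⟨h.choose, by rw [par, dif_pos h], h.choose_spec⟩

theorem par_cons (Γ : HGen CS) (x : HN CS) (w : ℕ → HN CS) :
    (fun k => par Γ (cons x w k)) = cons (par Γ x) fun k => par Γ (w k) := by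
  funext k; cases k <;> rfl

theorem par_los {Γ : HGen CS} (φ : Fml) (w : ℕ → HN CS) (hw : ∀ k, IsPar Γ (w k)) :
    Sat Γ.Γ.E φ (fun k => par Γ (w k)) ↔ Γ.Γ.F.U (valS CS φ w) := by
  choose l hl hl' using fun k => (hw k).exists_cl
  have e : (fun k => par Γ (w k)) = fun k => Γ.Γ.cl (l k) := funext hl
  have e' : w = fun k => Γ.Γ.xs (l k) := funext fun k => (hl' k).symm
  rw [e, Gen.los, hstr_val, ← e']

/-- generic quotients with given parameters -/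
theorem exists_hgen' (s : Set (HN CS)) (hs : s.Countable) (Q : HN CS → Set (RO Cond))
    (c : RO Cond) (hc : c ≠ ⊥) : ∃ Γ : HGen CS, Γ.Γ.F.U c ∧ (∀ x ∈ s, IsPar Γ x) ∧
      ∀ i, Γ.Γ.F.U (sSup (Q (Γ.Γ.xs i))) → ∃ b ∈ Q (Γ.Γ.xs i), Γ.Γ.F.U b := by
  by_cases hne : s.Nonempty
  · obtain ⟨u, rfl⟩ := hs.exists_eq_range hne
    obtain ⟨Γ, h1, h2, h3⟩ := exists_hgen CS u Q c hc
    exact ⟨Γ, h1, by rintro _ ⟨k, rfl⟩; exact h2 k, h3⟩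
  · obtain ⟨Γ, h1, h2, h3⟩ := exists_hgen CS (fun _ => DD) Q c hc
    exact ⟨Γ, h1, fun x hx => absurd ⟨x, hx⟩ hne, h3⟩

/-- inequalities can be checked in generic quotients -/
theorem le_of_gen (s : Set (HN CS)) (hs : s.Countable) (c b : RO Cond)
    (h : ∀ Γ : HGen CS, Γ.Γ.F.U c → (∀ x ∈ s, IsPar Γ x) → Γ.Γ.F.U b) : c ≤ b := by
  by_contra hcon
  have hc : c ⊓ bᶜ ≠ ⊥ := by
    intro h1
    apply hcon
    rwa [← sdiff_eq, sdiff_eq_bot_iff] at h1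
  obtain ⟨Γ, h1, h2, _⟩ := exists_hgen' s hs (fun _ => ∅) _ hc
  rw [Γ.Γ.F.inf_iff, Γ.Γ.F.compl_iff] at h1
  exact h1.2 (h Γ h1.1 h2)

/-- `x` is the set `X_d` -/
def IsX (Γ : HGen CS) (x : Γ.Γ.N) (d : ℕ) : Prop :=
  ∃ i, x = Γ.Γ.cl i ∧ Γ.Γ.F.U (eqv (Γ.Γ.xs i).1 (XdN d))

/-- `x` is the ground model set `b` of sets `X_d` -/
def IsB (Γ : HGen CS) (x : Γ.Γ.N) (b : Set ℕ) : Prop :=
  ∃ i, x = Γ.Γ.cl i ∧ Γ.Γ.F.U (eqv (Γ.Γ.xs i).1 (blkN b))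

section

variable {Γ : HGen CS}

theorem IsX.unique {x : Γ.Γ.N} {d d' : ℕ} (h : IsX Γ x d) (h' : IsX Γ x d') : d = d' := by
  obtain ⟨i, rfl, h⟩ := h
  obtain ⟨j, e, h'⟩ := h'
  rw [Gen.cl_eq] at e
  have e' : Γ.Γ.F.U (eqv (Γ.Γ.xs i).1 (Γ.Γ.xs j).1) := e
  have h1 : Γ.Γ.F.U (eqv (XdN d) (Γ.Γ.xs i).1) := by rw [eqv_symm]; exact h
  have h2 := Γ.Γ.F.mono (eqv_trans _ _ _) (Γ.Γ.F.inf h1
    (Γ.Γ.F.mono (eqv_trans _ _ _) (Γ.Γ.F.inf e' h')))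
  rwa [eqv_XdN', UF.tv_iff] at h2

theorem IsX.inj {x y : Γ.Γ.N} {d : ℕ} (h : IsX Γ x d) (h' : IsX Γ y d) : x = y := by
  obtain ⟨i, rfl, h⟩ := h
  obtain ⟨j, rfl, h'⟩ := h'
  rw [Gen.cl_eq]
  refine Γ.Γ.F.mono (eqv_trans _ (XdN d) _) (Γ.Γ.F.inf h ?_)
  rw [eqv_symm]
  exact h'

theorem IsPar.isB {b : Set ℕ} (h : IsPar Γ (blk b)) : IsB Γ (par Γ (blk b)) b := by
  obtain ⟨i, h1, h2⟩ := h.exists_cl
  refine ⟨i, h1, ?_⟩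
  rw [h2]
  show Γ.Γ.F.U (eqv (blkN b) (blkN b))
  rw [eqv_refl]
  exact Γ.Γ.F.top

theorem IsPar.isX {d : ℕ} (h : IsPar Γ (Xd d)) : IsX Γ (par Γ (Xd d)) d := by
  obtain ⟨i, h1, h2⟩ := h.exists_cl
  refine ⟨i, h1, ?_⟩
  rw [h2]
  show Γ.Γ.F.U (eqv (XdN d) (XdN d))
  rw [eqv_refl]
  exact Γ.Γ.F.top

/-- members of a ground model set which is a parameter -/
theorem mem_par_blk {b : Set ℕ} (h : IsPar Γ (blk b)) {x : Γ.Γ.N} :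
    Γ.Γ.E x (par Γ (blk b)) ↔ ∃ d ∈ b, IsX Γ x d := by
  obtain ⟨j, h1, h2⟩ := h.exists_cl
  rw [h1]
  constructor
  · intro hx
    obtain ⟨i, rfl⟩ := Gen.exists_rep x
    obtain ⟨a, _, ha⟩ := Γ.el i j hx
    revert a
    rw [h2]
    intro a _ ha
    exact ⟨a.1, a.2, i, rfl, ha⟩
  · rintro ⟨d, hd, i, rfl, hi⟩
    show Γ.Γ.F.U (memv (Γ.Γ.xs i).1 (Γ.Γ.xs j).1)
    rw [h2]
    show Γ.Γ.F.U (memv (Γ.Γ.xs i).1 (blkN b))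
    rw [memv_blkN]
    exact Γ.Γ.F.mono (le_iSup (fun d : b => eqv (Γ.Γ.xs i).1 (XdN d.1)) ⟨d, hd⟩) hi

/-- members of a ground model set -/
theorem mem_isB (hD : IsPar Γ (blk Set.univ)) {b : Set ℕ} {T x : Γ.Γ.N}
    (hT : IsB Γ T b) : Γ.Γ.E x T ↔ ∃ d ∈ b, IsX Γ x d := by
  obtain ⟨j, rfl, hj⟩ := hT
  constructor
  · intro hx
    obtain ⟨i, rfl⟩ := Gen.exists_rep x
    have h1 : Γ.Γ.F.U (memv (Γ.Γ.xs i).1 (Γ.Γ.xs j).1) := hx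
    have h2 : Γ.Γ.F.U (memv (Γ.Γ.xs i).1 (blkN b)) := by
      refine Γ.Γ.F.mono (memv_congr_right _ (Γ.Γ.xs j).1 _) (Γ.Γ.F.inf ?_ h1)
      exact hj
    have h3 : Γ.Γ.F.U (memv (Γ.Γ.xs i).1 (blkN Set.univ)) := by
      refine Γ.Γ.F.mono ?_ h2
      rw [memv_blkN, memv_blkN]
      refine iSup_le fun d => ?_
      exact le_iSup (fun d : (Set.univ : Set ℕ) => eqv (Γ.Γ.xs i).1 (XdN d.1)) ⟨d.1, trivial⟩
    have h4 : Γ.Γ.E (Γ.Γ.cl i) (par Γ (blk Set.univ)) := by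
      obtain ⟨k, e1, e2⟩ := hD.exists_cl
      rw [e1]
      show Γ.Γ.F.U (memv (Γ.Γ.xs i).1 (Γ.Γ.xs k).1)
      rw [e2]
      exact h3
    obtain ⟨d, _, hd⟩ := (mem_par_blk hD).1 h4
    refine ⟨d, ?_, hd⟩
    obtain ⟨i', e, hi'⟩ := hd
    rw [Gen.cl_eq] at e
    have e' : Γ.Γ.F.U (eqv (Γ.Γ.xs i).1 (Γ.Γ.xs i').1) := e
    have h5 : Γ.Γ.F.U (eqv (Γ.Γ.xs i).1 (XdN d)) :=
      Γ.Γ.F.mono (eqv_trans _ _ _) (Γ.Γ.F.inf e' hi')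
    have h6 : Γ.Γ.F.U (memv (XdN d) (blkN b)) :=
      Γ.Γ.F.mono (memv_congr_left _ _ _) (Γ.Γ.F.inf h5 h2)
    rw [memv_blkN] at h6
    by_contra hdb
    apply Γ.Γ.F.bot
    refine Γ.Γ.F.mono (iSup_le fun d' => ?_) h6
    rw [eqv_XdN', tv_false]
    rintro rfl
    exact hdb d'.2
  · rintro ⟨d, hd, i, rfl, hi⟩
    have h2 : Γ.Γ.F.U (memv (Γ.Γ.xs i).1 (blkN b)) := by
      rw [memv_blkN]
      exact Γ.Γ.F.mono (le_iSup (fun d : b => eqv (Γ.Γ.xs i).1 (XdN d.1)) ⟨d, hd⟩) hi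
    show Γ.Γ.F.U (memv (Γ.Γ.xs i).1 (Γ.Γ.xs j).1)
    refine Γ.Γ.F.mono (memv_congr_right _ (blkN b) _) (Γ.Γ.F.inf ?_ h2)
    rw [eqv_symm]
    exact hj

end

end Pool.Agent.NSC
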