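import Pool.Agent.NSC.Notions
import Pool.Agent.BVM.Eval

/-!
# Models of ZF with standard natural numbers: finiteness
-/

namespace Pool.Agent.NSC

open Pool.Agent.BVM

/-- a model of ZF in which every natural number is (externally) finite -/
structure OM {M : Type*} (E : M → M → Prop) : Prop where
  /-- the axioms of ZF -/
  zf : ZF E
  /-- natural numbers are finite -/
  nat : ∀ n, IsNat E n → {y | E y n}.Finite

section

variable {M : Type*} {E : M → M → Prop}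

theorem ZF.exists_empty (h : ZF E) : ∃ e, ∀ z, ¬ E z e := by
  obtain ⟨x, ⟨e, _, he⟩, _⟩ := h.infinity
  exact ⟨e, he⟩

theorem ZF.exists_upair (h : ZF E) (x y : M) : ∃ z, UPair E z x y := h.pair x y

theorem ZF.exists_opair (h : ZF E) (x y : M) : ∃ z, OPair E z x y := by
  obtain ⟨a, ha⟩ := h.pair x x
  obtain ⟨b, hb⟩ := h.pair x y
  obtain ⟨z, hz⟩ := h.pair a b
  exact ⟨z, a, b, ha, hb, hz⟩

theorem ZF.opair_unique (h : ZF E) {x y z z' : M} (h1 : OPair E z x y) (h2 : OPair E z' x y) :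
    z = z' := by
  obtain ⟨a, b, ha, hb, hz⟩ := h1
  obtain ⟨a', b', ha', hb', hz'⟩ := h2
  have e1 : a = a' := h.ext _ _ fun t => (ha t).trans (ha' t).symm
  have e2 : b = b' := h.ext _ _ fun t => (hb t).trans (hb' t).symm
  subst e1 e2
  exact h.ext _ _ fun t => (hz t).trans (hz' t).symm

theorem ZF.exists_cup (h : ZF E) (x y : M) : ∃ z, ∀ t, E t z ↔ (E t x ∨ E t y) := by
  obtain ⟨p, hp⟩ := h.pair x y
  obtain ⟨u, hu⟩ := h.union p
  refine ⟨u, fun t => (hu t).trans ⟨?_, ?_⟩⟩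
  · rintro ⟨w, hw, ht⟩
    rcases (hp w).1 hw with rfl | rfl
    · exact Or.inl ht
    · exact Or.inr ht
  · rintro (ht | ht)
    · exact ⟨x, (hp x).2 (Or.inl rfl), ht⟩
    · exact ⟨y, (hp y).2 (Or.inr rfl), ht⟩

theorem ZF.exists_insert (h : ZF E) (x a : M) : ∃ z, ∀ t, E t z ↔ (E t x ∨ t = a) := by
  obtain ⟨s, hs⟩ := h.pair a a
  obtain ⟨u, hu⟩ := h.exists_cup x s
  refine ⟨u, fun t => (hu t).trans (or_congr_right ?_)⟩
  rw [hs]
  simp

theorem ZF.exists_finset (h : ZF E) (s : Set M) (hs : s.Finite) : ∃ x, ∀ z, E z x ↔ z ∈ s := by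
  induction s, hs using Set.Finite.induction_on with
  | empty =>
    obtain ⟨e, he⟩ := h.exists_empty
    exact ⟨e, fun z => ⟨fun h => he z h, fun h => h.elim⟩⟩
  | @insert a s _ _ ih =>
    obtain ⟨x, hx⟩ := ih
    obtain ⟨y, hy⟩ := h.exists_insert x a
    refine ⟨y, fun z => (hy z).trans ?_⟩
    rw [hx, Set.mem_insert_iff, or_comm]

theorem ZF.not_mem_self (h : ZF E) (x : M) : ¬ E x x := by
  intro hx
  obtain ⟨s, hs⟩ := h.pair x x
  obtain ⟨y, hy, hy'⟩ := h.found s ⟨x, (hs x).2 (Or.inl rfl)⟩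
  have hyx : y = x := by
    rcases (hs y).1 hy with h | h <;> exact h
  subst hyx
  exact hy' y hx hy

/-- subsets defined by a formula -/
theorem ZF.exists_sep (h : ZF E) (φ : Fml) (v : ℕ → M) (x : M) :
    ∃ y, ∀ z, E z y ↔ (E z x ∧ Sat E φ (cons z v)) := h.sep φ v x

theorem ZF.exists_nat (h : ZF E) (k : ℕ) :
    ∃ n, IsNat E n ∧ {y | E y n}.Finite ∧ {y | E y n}.ncard = k := by
  induction k with
  | zero =>
    obtain ⟨e, he⟩ := h.exists_empty
    have h0 : {y | E y e} = ∅ := Set.eq_empty_of_forall_notMem he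
    refine ⟨e, ?_, ?_, ?_⟩
    · rintro I ⟨⟨e', he', h'⟩, _⟩
      have : e' = e := h.ext _ _ fun z => ⟨fun hz => (h' z hz).elim, fun hz => (he z hz).elim⟩
      rwa [← this]
    · rw [h0]; exact Set.finite_empty
    · rw [h0]; exact Set.ncard_empty _
  | succ k ih =>
    obtain ⟨n, hn, hfin, hcard⟩ := ih
    obtain ⟨s, hs⟩ := h.exists_insert n n
    have e : {y | E y s} = insert n {y | E y n} := by
      ext y
      exact (hs y).trans or_comm
    refine ⟨s, ?_, ?_, ?_⟩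
    · intro I hI
      obtain ⟨s', hs', h'⟩ := hI.2 n (hn I hI)
      have : s' = s := h.ext _ _ fun z => (h' z).trans (hs z).symm
      rwa [← this]
    · rw [e]; exact hfin.insert n
    · rw [e, Set.ncard_insert_of_notMem (s := {y | E y n}) (h.not_mem_self n) hfin, hcard]

theorem Bij.exists_map {f a b : M} (hf : Bij E f a b) :
    ∃ g : {x | E x a} → {y | E y b}, Function.Bijective g := by
  have h1 : ∀ x : {x | E x a}, ∃ y, Rel E f x.1 y ∧ ∀ y', Rel E f x.1 y' → y' = y :=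
    fun x => hf.2.1 x.1 x.2
  choose g hg hg' using h1
  have hb : ∀ x : {x | E x a}, E (g x) b := by
    intro x
    obtain ⟨z, hz, hzf⟩ := hg x
    obtain ⟨x', y', _, hy', hp⟩ := hf.1 z hzf
    rw [(hz.inj hp).2]
    exact hy'
  refine ⟨fun x => ⟨g x, hb x⟩, fun x x' hxx => ?_, fun y => ?_⟩
  · have e : g x = g x' := congrArg Subtype.val hxx
    obtain ⟨x0, _, hx0⟩ := hf.2.2 (g x) (hb x)
    have e1 := hx0 _ (hg x)
    have e2 := hx0 x'.1 (by rw [e]; exact hg x')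
    exact Subtype.ext (e1.trans e2.symm)
  · obtain ⟨x, hx, _⟩ := hf.2.2 y.1 y.2
    have hxa : E x a := by
      obtain ⟨z, hz, hzf⟩ := hx
      obtain ⟨x', y', hx', _, hp⟩ := hf.1 z hzf
      rw [(hz.inj hp).1]
      exact hx'
    exact ⟨⟨x, hxa⟩, Subtype.ext (hg' ⟨x, hxa⟩ y.1 hx).symm⟩

/-- external bijections between finite sets are internal -/
theorem ZF.exists_bij (h : ZF E) {a b : M} (ha : {x | E x a}.Finite)
    (g : {x | E x a} ≃ {y | E y b}) : ∃ f, Bij E f a b := by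
  have : Finite {x | E x a} := ha
  choose p hp using fun x : {x | E x a} => h.exists_opair x.1 (g x).1
  obtain ⟨f, hf⟩ := h.exists_finset (Set.range p) (Set.finite_range p)
  have hrel : ∀ x y, Rel E f x y ↔ ∃ x' : {x | E x a}, x = x'.1 ∧ y = (g x').1 := by
    intro x y
    constructor
    · rintro ⟨z, hz, hzf⟩
      obtain ⟨x', rfl⟩ := (hf z).1 hzf
      exact ⟨x', hz.inj (hp x')⟩
    · rintro ⟨x', rfl, rfl⟩
      exact ⟨p x', hp x', (hf _).2 ⟨x', rfl⟩⟩
  refine ⟨f, fun z hz => ?_, fun x hx => ?_, fun y hy => ?_⟩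
  · obtain ⟨x', rfl⟩ := (hf z).1 hz
    exact ⟨x'.1, (g x').1, x'.2, (g x').2, hp x'⟩
  · refine ⟨(g ⟨x, hx⟩).1, (hrel _ _).2 ⟨⟨x, hx⟩, rfl, rfl⟩, fun y' hy' => ?_⟩
    obtain ⟨x', hx', rfl⟩ := (hrel _ _).1 hy'
    have : x' = ⟨x, hx⟩ := Subtype.ext hx'.symm
    rw [this]
  · refine ⟨(g.symm ⟨y, hy⟩).1, (hrel _ _).2 ⟨g.symm ⟨y, hy⟩, rfl, ?_⟩, fun x' hx' => ?_⟩
    · rw [Equiv.apply_symm_apply]
    · obtain ⟨x'', rfl, h2⟩ := (hrel _ _).1 hx'
      have : (⟨y, hy⟩ : {y | E y b}) = g x'' := Subtype.ext h2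
      rw [this, Equiv.symm_apply_apply]

theorem OM.fin_iff (h : OM E) (x : M) : Fin E x ↔ {y | E y x}.Finite := by
  constructor
  · rintro ⟨n, f, hn, hf⟩
    obtain ⟨g, hg⟩ := hf.exists_map
    have : Finite {y | E y n} := h.nat n hn
    exact Finite.of_surjective g hg.2
  · intro hx
    obtain ⟨n, hn, hfin, hcard⟩ := h.zf.exists_nat {y | E y x}.ncard
    have : Finite {y | E y n} := hfin
    have : Finite {y | E y x} := hx
    have e : Nat.card {y | E y n} = Nat.card {y | E y x} := hcard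
    obtain ⟨g⟩ := Finite.card_eq.1 e
    obtain ⟨f, hf⟩ := h.zf.exists_bij hfin g
    exact ⟨n, f, hn, hf⟩

end

end Pool.Agent.NSC
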