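import Pool.Agent.NSC.Sem

/-!
# Hausdorff compactifications of discrete spaces inside models of ZF

From a non-scattered Hausdorff compactification of the discrete space on `D` we obtain an
infinite family of families of subsets of `D` with simple combinatorial properties.
-/

namespace Pool.Agent.NSC

open Pool.Agent.BVM

section

variable {M : Type*} (E : M → M → Prop)

/-- traces of the points of the remainder of a compactification -/
structure Fam (C D : M) : Prop where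
  /-- the members of members of `C` are subsets of `D` -/
  sub : ∀ c T, E c C → E T c → Sub E T D
  /-- `D` belongs to every member of `C` -/
  top : ∀ c, E c C → E D c
  /-- empty sets and singletons do not belong to members of `C` -/
  pt : ∀ c T, E c C → E T c → ∀ d, ∃ x, E x T ∧ x ≠ d
  /-- partition property -/
  cup : ∀ c T T1 T2, E c C → E T c → Sub E T1 D → Sub E T2 D →
    (∀ x, E x T → E x T1 ∨ E x T2) → E T1 c ∨ E T2 c
  /-- separation of two members of `C` -/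
  sep : ∀ c c', E c C → E c' C → c ≠ c' → ∃ T T', Sub E T D ∧ Sub E T' D ∧
    (∀ T0 S, E T0 c → (∀ x, E x S ↔ (E x T0 ∧ E x T)) → E S c) ∧
    (∀ T0 S, E T0 c' → (∀ x, E x S ↔ (E x T0 ∧ E x T')) → E S c') ∧
    ∀ c'', E c'' C → ¬ (E T c'' ∧ E T' c'')

/-- `z` is in the closure of the image of `T` under `e` -/
def Clos (t e z T : M) : Prop :=
  ∀ U, E U t → E z U → ∃ d y, E d T ∧ E y U ∧ Rel E e d y

/-- formula for `Clos` -/
def fClos (t e z T : ℕ) : Fml :=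
  .all (.imp (.mem 0 (t + 1)) (.imp (.mem (z + 1) 0) (.ex (.ex (.and (.mem 1 (T + 3))
    (.and (.mem 0 2) (fRel (e + 3) 1 0)))))))

end

section

variable {M : Type*} {E : M → M → Prop}

theorem sat_fClos {t e z T : ℕ} {v : ℕ → M} :
    Sat E (fClos t e z T) v ↔ Clos E (v t) (v e) (v z) (v T) := Iff.rfl

theorem Bij.rel_dom {f a b x y : M} (hf : Bij E f a b) (h : Rel E f x y) : E x a ∧ E y b := by
  obtain ⟨z, hz, hzf⟩ := h
  obtain ⟨x', y', hx', hy', hp⟩ := hf.1 z hzf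
  obtain ⟨e1, e2⟩ := hz.inj hp
  subst e1 e2
  exact ⟨hx', hy'⟩

/-- finite intersections of open sets around a point -/
theorem IsTop.finite_inter {K t x : M} (ht : IsTop E K t) (hx : E x K) (s : Set M)
    (hs : s.Finite) (P : M → M → Prop) (hP : ∀ y ∈ s, ∃ U, E U t ∧ E x U ∧ P y U)
    (mono : ∀ y U V, P y U → Sub E V U → P y V) :
    ∃ U, E U t ∧ E x U ∧ ∀ y ∈ s, P y U := by
  induction s, hs using Set.Finite.induction_on with
  | empty => exact ⟨K, ht.univ, hx, fun y hy => hy.elim⟩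
  | @insert a s _ _ ih =>
    obtain ⟨U, hU, hxU, h1⟩ := ih fun y hy => hP y (Set.mem_insert_of_mem _ hy)
    obtain ⟨V, hV, hxV, h2⟩ := hP a (Set.mem_insert _ _)
    obtain ⟨W, hW, hWi⟩ := ht.inter U V hU hV
    refine ⟨W, hW, (hWi x).2 ⟨hxU, hxV⟩, fun y hy => ?_⟩
    rcases Set.mem_insert_iff.1 hy with rfl | hy
    · exact mono _ _ _ h2 fun z hz => ((hWi z).1 hz).2
    · exact mono _ _ _ (h1 y hy) fun z hz => ((hWi z).1 hz).1

/-- compact Hausdorff spaces are regular -/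
theorem OM.regular (h : OM E) {K t : M} (ht : IsTop E K t) (hH : IsHaus E K t)
    (hC : IsComp E K t) {x U0 : M} (hx : E x K) (hU0 : E U0 t) (hxU : E x U0) :
    ∃ U1, E U1 t ∧ E x U1 ∧ Sub E U1 U0 ∧
      ∀ z, E z K → (∀ W, E W t → E z W → ∃ y, E y W ∧ E y U1) → E z U0 := by
  obtain ⟨𝒰, h𝒰⟩ := h.zf.sep (.or (.ex (.and (.mem 0 3) (.and (.mem 2 0)
    (.all (.neg (.and (.mem 0 1) (.mem 0 2))))))) (.eq 0 3)) (cons x (cons t fun _ => U0)) t
  have h𝒰' : ∀ W, E W 𝒰 ↔ (E W t ∧ ((∃ U', E U' t ∧ E x U' ∧ ∀ z, ¬ (E z U' ∧ E z W)) ∨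
    W = U0)) := h𝒰
  obtain ⟨𝒱, h1, h2, h3⟩ := hC 𝒰 (fun W hW => ((h𝒰' W).1 hW).1) (fun y hy => by
    by_cases hyx : y = x
    · subst hyx
      exact ⟨U0, (h𝒰' _).2 ⟨hU0, Or.inr rfl⟩, hxU⟩
    · obtain ⟨U, V, hU, hV, hxU', hyV, hd⟩ := hH x y hx hy (fun h => hyx h.symm)
      exact ⟨V, (h𝒰' _).2 ⟨hV, Or.inl ⟨U, hU, hxU', hd⟩⟩, hyV⟩)
  rw [h.fin_iff] at h2
  obtain ⟨U, hU, hxU', h4⟩ := ht.finite_inter hx {W | E W 𝒱} h2
    (fun W U' => W ≠ U0 → ∀ z, ¬ (E z U' ∧ E z W)) (fun W hW => by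
      by_cases hWU : W = U0
      · exact ⟨K, ht.univ, hx, fun h => absurd hWU h⟩
      · obtain ⟨_, ⟨U', h5, h6, h7⟩ | h5⟩ := (h𝒰' W).1 (h1 W hW)
        · exact ⟨U', h5, h6, fun _ => h7⟩
        · exact absurd h5 hWU) (fun W U V hP hVU hW z hz => hP hW z ⟨hVU z hz.1, hz.2⟩)
  obtain ⟨U1, hU1, hU1i⟩ := ht.inter U U0 hU hU0
  refine ⟨U1, hU1, (hU1i x).2 ⟨hxU', hxU⟩, fun z hz => ((hU1i z).1 hz).2, fun z hz hcl => ?_⟩
  obtain ⟨W, hW, hzW⟩ := h3 z hz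
  by_cases hWU : W = U0
  · rwa [← hWU]
  · exfalso
    obtain ⟨y, hyW, hyU⟩ := hcl W ((h𝒰' W).1 (h1 W hW)).1 hzW
    exact h4 W hW hWU y ⟨((hU1i y).1 hyU).1, hyW⟩

/-- a finite nonempty set in a Hausdorff space has isolated points -/
theorem isolated_of_finite {K t : M} (ht : IsTop E K t) (hH : IsHaus E K t) {A x : M}
    (hA : {y | E y A}.Finite) (hAK : Sub E A K) (hx : E x A) :
    ∃ U, E U t ∧ ∀ y, (E y A ∧ E y U) ↔ y = x := by
  obtain ⟨U, hU, hxU, h1⟩ := ht.finite_inter (hAK x hx) {y | E y A} hA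
    (fun y U => y ≠ x → ¬ E y U) (fun y hy => by
      by_cases hyx : y = x
      · exact ⟨K, ht.univ, hAK x hx, fun h => absurd hyx h⟩
      · obtain ⟨U, V, hU, hV, hxU', hyV, hd⟩ := hH x y (hAK x hx) (hAK y hy)
          (fun h => hyx h.symm)
        exact ⟨U, hU, hxU', fun _ h => hd y ⟨h, hyV⟩⟩)
    (fun y U V hP hVU hy hyV => hP hy (hVU y hyV))
  refine ⟨U, hU, fun y => ⟨fun ⟨h2, h3⟩ => ?_, ?_⟩⟩
  · by_contra hyx
    exact h1 y h2 hyx h3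
  · rintro rfl
    exact ⟨hx, hxU⟩

/-- the points of a dense discrete subspace are isolated -/
theorem isolated_of_dense {D K t A x : M} (ht : IsTop E K t) (hH : IsHaus E K t) (h : ZF E)
    (hA : DenseDisc E D K t A) (hx : E x A) : ∃ U, E U t ∧ ∀ y, E y U ↔ y = x := by
  obtain ⟨s, hs⟩ := h.pair x x
  have hs' : ∀ y, E y s ↔ y = x := fun y => by rw [hs, or_self]
  obtain ⟨U, hU, hUi⟩ := hA.disc s (fun y hy => by rw [(hs' y).1 hy]; exact hx)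
  have hxU : E x U := ((hUi x).2 ((hs' x).2 rfl)).1
  refine ⟨U, hU, fun y => ⟨fun hy => ?_, fun hy => by rw [hy]; exact hxU⟩⟩
  by_contra hyx
  obtain ⟨V, V', hV, hV', hyV, hxV', hd⟩ := hH y x (ht.sub U hU y hy) (hA.sub x hx) hyx
  obtain ⟨W, hW, hWi⟩ := ht.inter U V hU hV
  obtain ⟨z, hzW, hzA⟩ := hA.dense W hW ⟨y, (hWi y).2 ⟨hy, hyV⟩⟩
  have hzU := ((hWi z).1 hzW).1
  have hzx : z = x := (hs' z).1 ((hUi z).1 ⟨hzU, hzA⟩)
  subst hzx
  exact hd z ⟨((hWi z).1 hzW).2, hxV'⟩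

/-- traces of the remainder of a compactification -/
theorem OM.exists_fam (h : OM E) {D K t : M} (hK : HComp E D K t) (hS : ¬ IsScat E K t) :
    ∃ C, Fam E C D ∧ {c | E c C}.Infinite := by
  obtain ⟨ht, hH, hC, A, hA⟩ := hK
  obtain ⟨e, he⟩ := hA.bij
  -- power sets
  obtain ⟨P, hP⟩ := h.zf.power D
  obtain ⟨PP, hPP⟩ := h.zf.power P
  obtain ⟨C, hCs⟩ := h.zf.sep (.ex (.and (.mem 0 2) (.and (.neg (.mem 0 3))
    (.all (.iff (.mem 0 2) (.and (.all (.imp (.mem 0 1) (.mem 0 8))) (fClos 5 6 1 0)))))))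
    (cons K (cons A (cons t (cons e fun _ => D)))) PP
  have hC' : ∀ c, E c C ↔ (E c PP ∧ ∃ z, E z K ∧ ¬ E z A ∧ ∀ T, E T c ↔
      (Sub E T D ∧ Clos E t e z T)) := hCs
  -- the trace of a point
  have trace : ∀ z, E z K → ¬ E z A → ∃ c, E c C ∧ ∀ T, E T c ↔ (Sub E T D ∧ Clos E t e z T) := by
    intro z hz hzA
    obtain ⟨c, hc⟩ := h.zf.sep (fClos 2 3 1 0) (cons z (cons t fun _ => e)) P
    have hc' : ∀ T, E T c ↔ (E T P ∧ Clos E t e z T) := hc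
    have hc'' : ∀ T, E T c ↔ (Sub E T D ∧ Clos E t e z T) := fun T => by rw [hc', hP]; rfl
    refine ⟨c, (hC' c).2 ⟨(hPP c).2 fun T hT => ((hc' T).1 hT).1, z, hz, hzA, hc''⟩, hc''⟩
  -- separation of two points
  have key : ∀ z z', E z K → E z' K → z ≠ z' → ∃ T T', Sub E T D ∧ Sub E T' D ∧
      (∀ T0 S, Clos E t e z T0 → (∀ x, E x S ↔ (E x T0 ∧ E x T)) → Clos E t e z S) ∧
      (∀ T0 S, Clos E t e z' T0 → (∀ x, E x S ↔ (E x T0 ∧ E x T')) → Clos E t e z' S) ∧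
      ∀ z'', E z'' K → ¬ (Clos E t e z'' T ∧ Clos E t e z'' T') := by
    intro z z' hz hz' hne
    obtain ⟨U0, V0, hU0, hV0, hzU, hzV, hd⟩ := hH z z' hz hz' hne
    obtain ⟨U1, hU1, hzU1, hsub, hreg⟩ := h.regular ht hH hC hz hU0 hzU
    have tr : ∀ U, E U t → ∃ T, Sub E T D ∧ ∀ d, E d T ↔ (E d D ∧ ∃ y, E y U ∧ Rel E e d y) := by
      intro U hU
      obtain ⟨T, hT⟩ := h.zf.sep (.ex (.and (.mem 0 2) (fRel 3 1 0))) (cons U fun _ => e) D
      have hT' : ∀ d, E d T ↔ (E d D ∧ ∃ y, E y U ∧ Rel E e d y) := hT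
      exact ⟨T, fun d hd => ((hT' d).1 hd).1, hT'⟩
    have loc : ∀ z U T, E U t → E z U → (∀ d, E d T ↔ (E d D ∧ ∃ y, E y U ∧ Rel E e d y)) →
        ∀ T0 S, Clos E t e z T0 → (∀ x, E x S ↔ (E x T0 ∧ E x T)) → Clos E t e z S := by
      intro z U T hU hzU hT T0 S h0 hS W hW hzW
      obtain ⟨V, hV, hVi⟩ := ht.inter U W hU hW
      obtain ⟨d, y, hd, hy, hr⟩ := h0 V hV ((hVi z).2 ⟨hzU, hzW⟩)
      refine ⟨d, y, (hS d).2 ⟨hd, (hT d).2 ⟨(he.rel_dom hr).1, y, ((hVi y).1 hy).1, hr⟩⟩,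
        ((hVi y).1 hy).2, hr⟩
    obtain ⟨T, hTD, hT⟩ := tr U1 hU1
    obtain ⟨T', hTD', hT'⟩ := tr V0 hV0
    refine ⟨T, T', hTD, hTD', loc z U1 T hU1 hzU1 hT, loc z' V0 T' hV0 hzV hT', ?_⟩
    rintro z'' hz'' ⟨h1, h2⟩
    have h3 : E z'' U0 := by
      refine hreg z'' hz'' fun W hW hzW => ?_
      obtain ⟨d, y, hd, hy, hr⟩ := h1 W hW hzW
      obtain ⟨_, y', hy', hr'⟩ := (hT d).1 hd
      have : y = y' := by
        obtain ⟨y0, _, h0⟩ := he.2.1 d (he.rel_dom hr).1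
        rw [h0 y hr, h0 y' hr']
      subst this
      exact ⟨y, hy, hy'⟩
    obtain ⟨d, y, hd', hy, hr⟩ := h2 U0 hU0 h3
    obtain ⟨_, y', hy', hr'⟩ := (hT' d).1 hd'
    have : y = y' := by
      obtain ⟨y0, _, h0⟩ := he.2.1 d (he.rel_dom hr).1
      rw [h0 y hr, h0 y' hr']
    subst this
    exact hd y ⟨hy, hy'⟩
  -- every point is in the closure of `D`
  have clD : ∀ z, E z K → Clos E t e z D := by
    intro z hz U hU hzU
    obtain ⟨a, haU, haA⟩ := hA.dense U hU ⟨z, hzU⟩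
    obtain ⟨d, hd, _⟩ := he.2.2 a haA
    exact ⟨d, a, (he.rel_dom hd).1, haU, hd⟩
  refine ⟨C, ⟨?_, ?_, ?_, ?_, ?_⟩, ?_⟩
  · intro c T hc hT
    obtain ⟨_, z, hz, hzA, hcz⟩ := (hC' c).1 hc
    exact ((hcz T).1 hT).1
  · intro c hc
    obtain ⟨_, z, hz, hzA, hcz⟩ := (hC' c).1 hc
    exact (hcz D).2 ⟨fun _ hx => hx, clD z hz⟩
  · intro c T hc hT d
    obtain ⟨_, z, hz, hzA, hcz⟩ := (hC' c).1 hc
    by_contra hcon
    push Not at hcon
    have hcl := ((hcz T).1 hT).2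
    obtain ⟨d', y, hd', hy, hr⟩ := hcl K ht.univ hz
    have hyA := (he.rel_dom hr).2
    have hne : z ≠ y := by
      rintro rfl
      exact hzA hyA
    obtain ⟨W, W', hW, hW', hzW, hyW', hdis⟩ := hH z y hz hy hne
    obtain ⟨d'', y', hd'', hy', hr'⟩ := hcl W hW hzW
    have e1 : d'' = d' := (hcon _ hd'').trans (hcon _ hd').symm
    subst e1
    have e2 : y' = y := by
      obtain ⟨y0, _, h0⟩ := he.2.1 d'' (he.rel_dom hr).1
      rw [h0 y hr, h0 y' hr']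
    subst e2
    exact hdis _ ⟨hy', hyW'⟩
  · intro c T T1 T2 hc hT h1 h2 h12
    obtain ⟨_, z, hz, hzA, hcz⟩ := (hC' c).1 hc
    by_contra hcon
    rw [not_or, hcz, hcz] at hcon
    have n1 : ¬ Clos E t e z T1 := fun h => hcon.1 ⟨h1, h⟩
    have n2 : ¬ Clos E t e z T2 := fun h => hcon.2 ⟨h2, h⟩
    unfold Clos at n1 n2
    push Not at n1 n2
    obtain ⟨W1, hW1, hz1, g1⟩ := n1
    obtain ⟨W2, hW2, hz2, g2⟩ := n2
    obtain ⟨W, hW, hWi⟩ := ht.inter W1 W2 hW1 hW2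
    obtain ⟨d, y, hd, hy, hr⟩ := ((hcz T).1 hT).2 W hW ((hWi z).2 ⟨hz1, hz2⟩)
    rcases h12 d hd with h3 | h3
    · exact g1 d y h3 ((hWi y).1 hy).1 hr
    · exact g2 d y h3 ((hWi y).1 hy).2 hr
  · intro c c' hc hc' hne
    obtain ⟨_, z, hz, hzA, hcz⟩ := (hC' c).1 hc
    obtain ⟨_, z', hz', hzA', hcz'⟩ := (hC' c').1 hc'
    have hzz : z ≠ z' := by
      rintro rfl
      exact hne (h.zf.ext _ _ fun T => (hcz T).trans (hcz' T).symm)
    obtain ⟨T, T', hT, hT', k1, k2, k3⟩ := key z z' hz hz' hzz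
    refine ⟨T, T', hT, hT', ?_, ?_, ?_⟩
    · intro T0 S hT0 hS
      have h0 := (hcz T0).1 hT0
      exact (hcz S).2 ⟨fun x hx => h0.1 x ((hS x).1 hx).1, k1 T0 S h0.2 hS⟩
    · intro T0 S hT0 hS
      have h0 := (hcz' T0).1 hT0
      exact (hcz' S).2 ⟨fun x hx => h0.1 x ((hS x).1 hx).1, k2 T0 S h0.2 hS⟩
    · rintro c'' hc'' ⟨h1, h2⟩
      obtain ⟨_, z'', hz'', _, hcz''⟩ := (hC' c'').1 hc''
      exact k3 z'' hz'' ⟨((hcz'' T).1 h1).2, ((hcz'' T').1 h2).2⟩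
  · -- the remainder is infinite
    unfold IsScat at hS
    push Not at hS
    obtain ⟨S, hSK, ⟨x0, hx0⟩, hiso⟩ := hS
    have hSA : ∀ x, E x S → ¬ E x A := by
      intro x hx hxA
      obtain ⟨U, hU, hUi⟩ := isolated_of_dense ht hH h.zf hA hxA
      obtain ⟨y, hy⟩ := hiso x U hx hU
      rcases hy with ⟨⟨_, h2⟩, h3⟩ | ⟨h2, h3⟩
      · exact h3 ((hUi y).1 h2)
      · subst h3
        exact h2 hx ((hUi y).2 rfl)
    have hinf : {x | E x S}.Infinite := by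
      intro hfin
      obtain ⟨U, hU, hUi⟩ := isolated_of_finite ht hH hfin hSK hx0
      obtain ⟨y, hy⟩ := hiso x0 U hx0 hU
      rcases hy with ⟨h2, h3⟩ | ⟨h2, h3⟩
      · exact h3 ((hUi y).1 h2)
      · exact h2 ((hUi y).2 h3).1 ((hUi y).2 h3).2
    have : Infinite {x | E x S} := hinf.to_subtype
    choose g hg hg' using fun x : {x | E x S} => trace x.1 (hSK x.1 x.2) (hSA x.1 x.2)
    refine Set.infinite_of_injective_forall_mem (f := g) (fun x y hxy => ?_) hg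
    by_contra hne
    have hne' : x.1 ≠ y.1 := fun h => hne (Subtype.ext h)
    obtain ⟨T, T', hT, hT', k1, k2, k3⟩ := key x.1 y.1 (hSK _ x.2) (hSK _ y.2) hne'
    obtain ⟨S1, hS1⟩ := h.zf.sep (.mem 0 1) (fun _ => T) D
    have hS1' : ∀ z, E z S1 ↔ (E z D ∧ E z T) := hS1
    obtain ⟨S2, hS2⟩ := h.zf.sep (.mem 0 1) (fun _ => T') D
    have hS2' : ∀ z, E z S2 ↔ (E z D ∧ E z T') := hS2
    have e1 : S1 = T := h.zf.ext _ _ fun z => (hS1' z).trans ⟨fun h => h.2, fun h => ⟨hT z h, h⟩⟩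
    have e2 : S2 = T' := h.zf.ext _ _ fun z => (hS2' z).trans ⟨fun h => h.2, fun h => ⟨hT' z h, h⟩⟩
    have c1 : Clos E t e x.1 T := e1 ▸ k1 D S1 (clD _ (hSK _ x.2)) hS1'
    have c2 : Clos E t e y.1 T' := e2 ▸ k2 D S2 (clD _ (hSK _ y.2)) hS2'
    have c3 : E T (g x) := (hg' x T).2 ⟨hT, c1⟩
    rw [hxy] at c3
    exact k3 y.1 (hSK _ y.2) ⟨((hg' y T).1 c3).2, c2⟩

end

end Pool.Agent.NSC
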